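import Pool.Agent.J4.H66.MG.Sec

set_option autoImplicit false

/-! The characteristic function. -/

namespace Pool.Agent.J4.H66.MG
open Finset Filter Topology Complex

lemma cos_exp (x : ℝ) : |Real.cos x - Real.exp (-(x ^ 2 / 2))| ≤ 2 * x ^ 4 := by
  rcases le_or_gt |x| 1 with hx | hx
  · have h1 := Real.cos_bound hx
    have hx2 : x ^ 2 ≤ 1 := by
      rw [← sq_abs]
      exact pow_le_one₀ (abs_nonneg _) hx
    have h2 := Real.abs_exp_sub_one_sub_id_le (x := -(x ^ 2 / 2)) (by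
      rw [abs_neg, abs_of_nonneg (by positivity)]
      linarith)
    have e1 : |x| ^ 4 = x ^ 4 := by
      have : |x| ^ 4 = (|x| ^ 2) ^ 2 := by ring
      rw [this, sq_abs]
      ring
    rw [e1] at h1
    have h3 := abs_sub_le (Real.cos x) (1 - x ^ 2 / 2) (Real.exp (-(x ^ 2 / 2)))
    have e2 : |1 - x ^ 2 / 2 - Real.exp (-(x ^ 2 / 2))| = |Real.exp (-(x ^ 2 / 2)) - 1 - -(x ^ 2 / 2)| := by
      rw [← abs_neg]
      congr 1
      ring
    rw [e2] at h3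
    have : 0 ≤ x ^ 4 := by positivity
    have e3 : (-(x ^ 2 / 2)) ^ 2 = x ^ 4 / 4 := by ring
    rw [e3] at h2
    linarith
  · have h1 := Real.abs_cos_le_one x
    have h2 : 0 < Real.exp (-(x ^ 2 / 2)) := Real.exp_pos _
    have h3 : Real.exp (-(x ^ 2 / 2)) ≤ 1 := Real.exp_le_one_iff.2 (by
      have : 0 ≤ x ^ 2 / 2 := by positivity
      linarith)
    have h4 : |Real.cos x - Real.exp (-(x ^ 2 / 2))| ≤ 2 := by
      rw [abs_le] at h1 ⊢
      constructor <;> linarith [h1.1, h1.2]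
    have h5 : 1 ≤ x ^ 4 := by
      have : x ^ 4 = |x| ^ 4 := by
        have : |x| ^ 4 = (|x| ^ 2) ^ 2 := by ring
        rw [this, sq_abs]
        ring
      rw [this]
      exact one_le_pow₀ hx.le
    linarith

lemma prod_diff {ι : Type*} (s : Finset ι) (a b : ι → ℝ) (ha : ∀ i, |a i| ≤ 1) (hb : ∀ i, |b i| ≤ 1) :
    |∏ i ∈ s, a i - ∏ i ∈ s, b i| ≤ ∑ i ∈ s, |a i - b i| := by
  classical
  induction s using Finset.induction_on with
  | empty => simp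
  | insert i s hi ih =>
    rw [prod_insert hi, prod_insert hi, sum_insert hi]
    have e : a i * ∏ i ∈ s, a i - b i * ∏ i ∈ s, b i = (a i - b i) * ∏ i ∈ s, a i +
        b i * (∏ i ∈ s, a i - ∏ i ∈ s, b i) := by ring
    rw [e]
    refine (abs_add_le _ _).trans ?_
    apply add_le_add
    · rw [abs_mul]
      apply mul_le_of_le_one_right (abs_nonneg _)
      rw [abs_prod]
      exact prod_le_one (fun _ _ => abs_nonneg _) (fun i _ => ha i)
    · rw [abs_mul]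
      exact (mul_le_of_le_one_left (abs_nonneg _) (hb i)).trans ih

lemma exp_diff (x y : ℝ) (hx : 0 ≤ x) (hy : 0 ≤ y) : |Real.exp (-x) - Real.exp (-y)| ≤ |x - y| := by
  have key : ∀ x y : ℝ, 0 ≤ x → x ≤ y → |Real.exp (-x) - Real.exp (-y)| ≤ |x - y| := by
    intro x y hx hxy
    have h1 : Real.exp (-y) = Real.exp (-x) * Real.exp (-(y - x)) := by
      rw [← Real.exp_add]
      congr 1
      ring
    have h2 := Real.add_one_le_exp (-(y - x))
    have h3 : Real.exp (-x) ≤ 1 := Real.exp_le_one_iff.2 (by linarith)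
    have h4 := Real.exp_pos (-x)
    have h5 : Real.exp (-y) ≤ Real.exp (-x) := Real.exp_le_exp.2 (by linarith)
    rw [abs_of_nonneg (by linarith), abs_of_nonpos (by linarith), h1]
    have h6 : Real.exp (-x) - Real.exp (-x) * Real.exp (-(y - x)) =
        Real.exp (-x) * (1 - Real.exp (-(y - x))) := by ring
    rw [h6]
    calc Real.exp (-x) * (1 - Real.exp (-(y - x))) ≤ Real.exp (-x) * (y - x) :=
          mul_le_mul_of_nonneg_left (by linarith) h4.le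
      _ ≤ 1 * (y - x) := mul_le_mul_of_nonneg_right h3 (by linarith)
      _ = -(x - y) := by ring
  rcases le_total x y with h | h
  · exact key x y hx h
  · rw [abs_sub_comm, abs_sub_comm x y]
    exact key y x hy h

/-- the coefficients of the expansion -/
noncomputable def co (w : ℝ) (e : Fin 3) : ℂ :=
  if e = 0 then 1 else if e = 1 then (Real.sin w : ℂ) * I else (Real.cos w : ℂ) - 1

lemma co_norm (w : ℝ) (e : Fin 3) : ‖co w e‖ ≤ 2 := by
  unfold co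
  split_ifs
  · simp
  · rw [norm_mul, Complex.norm_I, mul_one, Complex.norm_real, Real.norm_eq_abs]
    exact (Real.abs_sin_le_one w).trans (by norm_num)
  · have h := norm_sub_le ((Real.cos w : ℂ)) 1
    rw [Complex.norm_real, Real.norm_eq_abs, norm_one] at h
    linarith [Real.abs_cos_le_one w]

lemma expand_exp (w m : ℝ) (hm : m = -1 ∨ m = 0 ∨ m = 1) :
    cexp (((w * m : ℝ) : ℂ) * I) = ∑ e : Fin 3, co w e * ((m ^ (e : ℕ) : ℝ) : ℂ) := by
  rw [Fin.sum_univ_three]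
  have c0 : co w 0 = 1 := by simp [co]
  have c1 : co w 1 = (Real.sin w : ℂ) * I := by simp [co]
  have c2 : co w 2 = (Real.cos w : ℂ) - 1 := by simp [co]
  rw [c0, c1, c2, Complex.exp_mul_I, ← Complex.ofReal_cos, ← Complex.ofReal_sin]
  rcases hm with h | h | h <;> subst h <;> simp <;> ring

lemma expand_cos (w m : ℝ) (hm : m = -1 ∨ m = 0 ∨ m = 1) :
    ((Real.cos (w * m) : ℝ) : ℂ) = ∑ e : Fin 3, (if e = 1 then 0 else co w e * ((m ^ (e : ℕ) : ℝ) : ℂ)) := by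
  rw [Fin.sum_univ_three]
  have c0 : co w 0 = 1 := by simp [co]
  have c2 : co w 2 = (Real.cos w : ℂ) - 1 := by simp [co]
  have n0 : ¬ ((0 : Fin 3) = 1) := by decide
  have n2 : ¬ ((2 : Fin 3) = 1) := by decide
  rw [if_neg n0, if_pos rfl, if_neg n2, c0, c2]
  rcases hm with h | h | h <;> subst h <;> simp

variable {k : ℕ}

lemma expand (A : Finset ℕ) (d : Fin k → ℕ) (w : Fin k → ℝ) :
    ∑ n ∈ A, (cexp (((∑ i, w i * mu (n + d i) : ℝ) : ℂ) * I) -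
      ((∏ i, Real.cos (w i * mu (n + d i)) : ℝ) : ℂ)) =
    ∑ p ∈ univ.filter (fun p : Fin k → Fin 3 => ∃ i, p i = 1), (∏ i, co (w i) (p i)) *
      ((∑ n ∈ A, ∏ i, mu (n + d i) ^ (p i : ℕ) : ℝ) : ℂ) := by
  classical
  have pt : ∀ n ∈ A, cexp (((∑ i, w i * mu (n + d i) : ℝ) : ℂ) * I) -
      ((∏ i, Real.cos (w i * mu (n + d i)) : ℝ) : ℂ) =
      ∑ p ∈ univ.filter (fun p : Fin k → Fin 3 => ∃ i, p i = 1), (∏ i, co (w i) (p i)) *
        ((∏ i, mu (n + d i) ^ (p i : ℕ) : ℝ) : ℂ) := by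
    intro n _
    have h1 : cexp (((∑ i, w i * mu (n + d i) : ℝ) : ℂ) * I) =
        ∑ p : Fin k → Fin 3, ∏ i, (co (w i) (p i) * ((mu (n + d i) ^ (p i : ℕ) : ℝ) : ℂ)) := by
      rw [Complex.ofReal_sum, sum_mul, Complex.exp_sum]
      rw [prod_congr rfl (fun i _ => expand_exp (w i) (mu (n + d i)) (mu_cases _))]
      rw [prod_univ_sum, Fintype.piFinset_univ]
    have h2 : ((∏ i, Real.cos (w i * mu (n + d i)) : ℝ) : ℂ) =
        ∑ p : Fin k → Fin 3, ∏ i, (if p i = 1 then 0 else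
          co (w i) (p i) * ((mu (n + d i) ^ (p i : ℕ) : ℝ) : ℂ)) := by
      rw [Complex.ofReal_prod]
      rw [prod_congr rfl (fun i _ => expand_cos (w i) (mu (n + d i)) (mu_cases _))]
      rw [prod_univ_sum, Fintype.piFinset_univ]
    rw [h1, h2, ← sum_sub_distrib, sum_filter]
    apply sum_congr rfl
    intro p _
    split_ifs with hp
    · obtain ⟨i, hi⟩ := hp
      have z : ∏ i, (if p i = 1 then (0 : ℂ) else co (w i) (p i) * ((mu (n + d i) ^ (p i : ℕ) : ℝ) : ℂ)) = 0 :=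
        prod_eq_zero (mem_univ i) (if_pos hi)
      rw [z, sub_zero, prod_mul_distrib]
      push_cast
      rfl
    · push Not at hp
      rw [sub_eq_zero]
      apply prod_congr rfl
      intro i _
      rw [if_neg (hp i)]
  rw [sum_congr rfl pt, sum_comm]
  apply sum_congr rfl
  intro p _
  rw [← mul_sum]
  push_cast
  rfl

lemma expand_le (A : Finset ℕ) (d : Fin k → ℕ) (w : Fin k → ℝ) (B : ℝ) (hB0 : 0 ≤ B)
    (hB : ∀ e : Fin k → Fin 3, (∃ i, e i = 1) → |∑ n ∈ A, ∏ j, mu (n + d j) ^ (e j : ℕ)| ≤ B) :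
    ‖∑ n ∈ A, (cexp (((∑ i, w i * mu (n + d i) : ℝ) : ℂ) * I) -
      ((∏ i, Real.cos (w i * mu (n + d i)) : ℝ) : ℂ))‖ ≤ 6 ^ k * B := by
  rw [expand]
  refine (norm_sum_le _ _).trans ?_
  have h1 : ∀ p ∈ univ.filter (fun p : Fin k → Fin 3 => ∃ i, p i = 1), ‖(∏ i, co (w i) (p i)) *
      ((∑ n ∈ A, ∏ i, mu (n + d i) ^ (p i : ℕ) : ℝ) : ℂ)‖ ≤ 2 ^ k * B := by
    intro p hp
    rw [mem_filter] at hp
    rw [norm_mul, Complex.norm_real, Real.norm_eq_abs]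
    apply mul_le_mul _ (hB p hp.2) (abs_nonneg _) (by positivity)
    rw [norm_prod]
    refine (prod_le_prod (fun _ _ => norm_nonneg _) (fun i _ => co_norm (w i) (p i))).trans ?_
    simp
  refine (sum_le_sum h1).trans ?_
  rw [sum_const, nsmul_eq_mul]
  have h2 : (#(univ.filter (fun e : Fin k → Fin 3 => ∃ i, e i = 1)) : ℝ) ≤ 3 ^ k := by
    have := card_le_card (filter_subset (fun e : Fin k → Fin 3 => ∃ i, e i = 1) univ)
    have h7 : #(univ : Finset (Fin k → Fin 3)) = 3 ^ k := by simp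
    rw [h7] at this
    exact_mod_cast this
  calc (#(univ.filter (fun e : Fin k → Fin 3 => ∃ i, e i = 1)) : ℝ) * (2 ^ k * B) ≤ 3 ^ k * (2 ^ k * B) :=
        mul_le_mul_of_nonneg_right h2 (by positivity)
    _ = 6 ^ k * B := by
        rw [← mul_assoc, ← mul_pow]
        norm_num

/-- the scaling -/
noncomputable def sc (k H : ℕ) (f : ℕ → ℝ) : ℝ := Real.sqrt (cc * k * sg H f)

/-- the normalised sum -/
noncomputable def ZZ (H : ℕ) (f : ℕ → ℝ) (d : Fin k → ℕ) (n : ℕ) : ℝ :=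
  (∑ i, f (d i) * mu (n + d i)) / sc k H f

lemma pt_est (hk : 1 ≤ k) (H : ℕ) (f : ℕ → ℝ) (hf : ∀ d, |f d| ≤ 1) (ε : ℝ) (hε : 0 < ε) (hsg : ε ≤ sg H f)
    (d : Fin k → ℕ) (n : ℕ) (τ η : ℝ) (hη : 0 < η) :
    |∏ i, Real.cos (τ * f (d i) / sc k H f * mu (n + d i)) - Real.exp (-(τ ^ 2 / 2))| ≤
      8 * τ ^ 4 / (k * ε ^ 2) + τ ^ 2 / 2 * (η + 4 / (η * k ^ 2 * ε ^ 2) * (∑ i, YY H f n (d i)) ^ 2) := by
  have hk0 : (0 : ℝ) < k := by exact_mod_cast hk
  have hcc := cc_half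
  have hq : k * ε / 2 ≤ cc * k * sg H f := by
    have h1 : 1 / 2 * (k : ℝ) ≤ cc * k := mul_le_mul_of_nonneg_right hcc hk0.le
    have h2 : 1 / 2 * (k : ℝ) * ε ≤ cc * k * sg H f := mul_le_mul h1 hsg hε.le (by positivity)
    linarith
  have hqp : 0 < cc * k * sg H f := lt_of_lt_of_le (by positivity) hq
  have hs0 : 0 < sc k H f := Real.sqrt_pos.2 hqp
  have hs2 : sc k H f ^ 2 = cc * k * sg H f := Real.sq_sqrt hqp.le
  set s := sc k H f with hs
  set q := cc * k * sg H f with hqd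
  have hs4 : s ^ 4 = q ^ 2 := by rw [← hs2]; ring
  have hq2 : (k * ε / 2) ^ 2 ≤ q ^ 2 := pow_le_pow_left₀ (by positivity) hq 2
  set x : Fin k → ℝ := fun i => τ * f (d i) / s * mu (n + d i) with hx
  have hx2 : ∀ i, x i ^ 2 = τ ^ 2 / q * (mu (n + d i) ^ 2 * f (d i) ^ 2) := by
    intro i
    rw [hx]
    simp only
    rw [← hs2]
    field_simp
  have hmf : ∀ i, 0 ≤ mu (n + d i) ^ 2 * f (d i) ^ 2 ∧ mu (n + d i) ^ 2 * f (d i) ^ 2 ≤ 1 := by
    intro i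
    have h1 := mu_sq_mem (n + d i)
    have h2 : f (d i) ^ 2 ≤ 1 := by
      rw [← sq_abs]
      exact pow_le_one₀ (abs_nonneg _) (hf _)
    exact ⟨mul_nonneg h1.1 (sq_nonneg _), mul_le_one₀ h1.2 (sq_nonneg _) h2⟩
  have hx4 : ∀ i, x i ^ 4 ≤ 4 * τ ^ 4 / (k ^ 2 * ε ^ 2) := by
    intro i
    have e : x i ^ 4 = (τ ^ 2 / q) ^ 2 * (mu (n + d i) ^ 2 * f (d i) ^ 2) ^ 2 := by
      rw [← mul_pow, ← hx2]
      ring
    rw [e]
    have h1 : (mu (n + d i) ^ 2 * f (d i) ^ 2) ^ 2 ≤ 1 := pow_le_one₀ (hmf i).1 (hmf i).2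
    have h2 : (τ ^ 2 / q) ^ 2 ≤ 4 * τ ^ 4 / (k ^ 2 * ε ^ 2) := by
      rw [div_pow]
      have e1 : 4 * τ ^ 4 / (k ^ 2 * ε ^ 2) = (τ ^ 2) ^ 2 / (k * ε / 2) ^ 2 := by
        field_simp
        ring
      rw [e1]
      exact div_le_div_of_nonneg_left (by positivity) (by positivity) hq2
    calc (τ ^ 2 / q) ^ 2 * (mu (n + d i) ^ 2 * f (d i) ^ 2) ^ 2 ≤ (τ ^ 2 / q) ^ 2 * 1 :=
          mul_le_mul_of_nonneg_left h1 (by positivity)
      _ ≤ _ := by rw [mul_one]; exact h2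
  have h1 : |∏ i, Real.cos (x i) - ∏ i, Real.exp (-(x i ^ 2 / 2))| ≤ 8 * τ ^ 4 / (k * ε ^ 2) := by
    refine (prod_diff univ _ _ (fun i => Real.abs_cos_le_one _) (fun i => ?_)).trans ?_
    · rw [abs_of_pos (Real.exp_pos _)]
      exact Real.exp_le_one_iff.2 (by
        have : 0 ≤ x i ^ 2 / 2 := by positivity
        linarith)
    · refine (sum_le_sum (fun i _ => (cos_exp (x i)).trans
        (mul_le_mul_of_nonneg_left (hx4 i) (by norm_num)))).trans ?_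
      rw [sum_const, nsmul_eq_mul, card_univ, Fintype.card_fin]
      apply le_of_eq
      field_simp
      ring
  have h2 : ∏ i, Real.exp (-(x i ^ 2 / 2)) = Real.exp (-((∑ i, x i ^ 2) / 2)) := by
    rw [← Real.exp_sum]
    congr 1
    rw [sum_div, sum_neg_distrib]
  have h3 : |Real.exp (-((∑ i, x i ^ 2) / 2)) - Real.exp (-(τ ^ 2 / 2))| ≤
      τ ^ 2 / 2 * (η + 4 / (η * k ^ 2 * ε ^ 2) * (∑ i, YY H f n (d i)) ^ 2) := by
    refine (exp_diff _ _ (by positivity) (by positivity)).trans ?_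
    have e1 : (∑ i, x i ^ 2) / 2 - τ ^ 2 / 2 = τ ^ 2 / 2 * ((∑ i, YY H f n (d i)) / q) := by
      have e2 : ∑ i, YY H f n (d i) = ∑ i, mu (n + d i) ^ 2 * f (d i) ^ 2 - q := by
        unfold YY
        rw [sum_sub_distrib, sum_const, nsmul_eq_mul, card_univ, Fintype.card_fin, hqd]
        ring
      have e3 : ∑ i, x i ^ 2 = τ ^ 2 / q * ∑ i, mu (n + d i) ^ 2 * f (d i) ^ 2 := by
        rw [mul_sum]
        exact sum_congr rfl (fun i _ => hx2 i)
      rw [e2, e3]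
      field_simp
    rw [e1, abs_mul, abs_of_nonneg (by positivity : 0 ≤ τ ^ 2 / 2)]
    apply mul_le_mul_of_nonneg_left _ (by positivity)
    set y := ∑ i, YY H f n (d i) with hy
    have h4 : |y / q| ≤ η + (y / q) ^ 2 / η := by
      have h5 : |y / q| * η ≤ η * η + (y / q) ^ 2 := by
        rw [← sq_abs (y / q)]
        nlinarith [sq_nonneg (|y / q| - η), abs_nonneg (y / q)]
      have h6 : |y / q| ≤ (η * η + (y / q) ^ 2) / η := by rwa [le_div_iff₀ hη]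
      refine h6.trans (le_of_eq ?_)
      field_simp
    refine h4.trans ?_
    have h5 : (y / q) ^ 2 / η ≤ 4 / (η * k ^ 2 * ε ^ 2) * y ^ 2 := by
      rw [div_pow]
      have e1 : 4 / (η * k ^ 2 * ε ^ 2) * y ^ 2 = y ^ 2 / (k * ε / 2) ^ 2 / η := by
        field_simp
        ring
      rw [e1]
      apply div_le_div_of_nonneg_right _ hη.le
      exact div_le_div_of_nonneg_left (by positivity) (by positivity) hq2
    linarith
  rw [← h2] at h3
  exact (abs_sub_le _ _ _).trans (add_le_add h1 h3)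

/-- the characteristic function of the normalised sum is close to the gaussian one -/
lemma char_main (hk : 1 ≤ k) (H : ℕ) (f : ℕ → ℝ) (hf : ∀ d, |f d| ≤ 1) (ε : ℝ) (hε : 0 < ε) (hsg : ε ≤ sg H f)
    (A : Finset ℕ) (X : ℕ) (hX : 1 ≤ X) (hA : ε * X ≤ #A) (d : Fin k → ℕ) (ρ : ℝ) (hρ : 0 < ρ)
    (hP1 : ∀ e : Fin k → Fin 3, (∃ i, e i = 1) →
      |∑ n ∈ A, ∏ j, mu (n + d j) ^ (e j : ℕ)| ≤ 1 / (k * 6 ^ k) * X)
    (hP2 : ∑ n ∈ A, (∑ i, YY H f n (d i)) ^ 2 ≤ 3 * k / ρ * X) (τ η : ℝ) (hη : 0 < η) :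
    ‖(∑ n ∈ A, cexp (((τ * ZZ H f d n : ℝ) : ℂ) * I)) / #A - ((Real.exp (-(τ ^ 2 / 2)) : ℝ) : ℂ)‖ ≤
      1 / (k * ε) + 8 * τ ^ 4 / (k * ε ^ 2) + τ ^ 2 / 2 * (η + 12 / (ρ * η * k * ε ^ 3)) := by
  have hk0 : (0 : ℝ) < k := by exact_mod_cast hk
  have hX0 : (0 : ℝ) < X := by exact_mod_cast hX
  have hA0 : (0 : ℝ) < #A := lt_of_lt_of_le (by positivity) hA
  have h1 := expand_le A d (fun i => τ * f (d i) / sc k H f) (1 / (k * 6 ^ k) * X) (by positivity) hP1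
  have e1 : ∀ n, ∑ i, τ * f (d i) / sc k H f * mu (n + d i) = τ * ZZ H f d n := by
    intro n
    unfold ZZ
    rw [sum_div, mul_sum]
    apply sum_congr rfl
    intro i _
    ring
  simp only [e1] at h1
  have e2 : (6 : ℝ) ^ k * (1 / (k * 6 ^ k) * X) = X / k := by
    field_simp
  rw [e2, sum_sub_distrib] at h1
  have h2 : ‖∑ n ∈ A, (((∏ i, Real.cos (τ * f (d i) / sc k H f * mu (n + d i)) : ℝ) : ℂ)) -
      #A * ((Real.exp (-(τ ^ 2 / 2)) : ℝ) : ℂ)‖ ≤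
      #A * (8 * τ ^ 4 / (k * ε ^ 2) + τ ^ 2 / 2 * (η + 12 / (ρ * η * k * ε ^ 3))) := by
    have e3 : ∑ n ∈ A, (((∏ i, Real.cos (τ * f (d i) / sc k H f * mu (n + d i)) : ℝ) : ℂ)) -
        #A * ((Real.exp (-(τ ^ 2 / 2)) : ℝ) : ℂ) =
        ((∑ n ∈ A, (∏ i, Real.cos (τ * f (d i) / sc k H f * mu (n + d i)) - Real.exp (-(τ ^ 2 / 2))) : ℝ) : ℂ) := by
      rw [sum_sub_distrib, sum_const, nsmul_eq_mul]
      push_cast
      rfl
    rw [e3, Complex.norm_real, Real.norm_eq_abs]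
    refine (abs_sum_le_sum_abs _ _).trans ?_
    refine (sum_le_sum (fun n _ => pt_est hk H f hf ε hε hsg d n τ η hη)).trans ?_
    rw [sum_add_distrib, sum_const, nsmul_eq_mul, ← mul_sum, sum_add_distrib, sum_const, nsmul_eq_mul, ← mul_sum]
    have h3 : 4 / (η * k ^ 2 * ε ^ 2) * ∑ n ∈ A, (∑ i, YY H f n (d i)) ^ 2 ≤
        #A * (12 / (ρ * η * k * ε ^ 3)) := by
      calc 4 / (η * k ^ 2 * ε ^ 2) * ∑ n ∈ A, (∑ i, YY H f n (d i)) ^ 2 ≤
            4 / (η * k ^ 2 * ε ^ 2) * (3 * k / ρ * X) := mul_le_mul_of_nonneg_left hP2 (by positivity)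
        _ = 12 / (ρ * η * k * ε ^ 3) * (ε * X) := by
            field_simp
            ring
        _ ≤ 12 / (ρ * η * k * ε ^ 3) * #A := mul_le_mul_of_nonneg_left hA (by positivity)
        _ = _ := by ring
    have h4 : τ ^ 2 / 2 * (#A * η + 4 / (η * k ^ 2 * ε ^ 2) * ∑ n ∈ A, (∑ i, YY H f n (d i)) ^ 2) ≤
        τ ^ 2 / 2 * (#A * η + #A * (12 / (ρ * η * k * ε ^ 3))) :=
      mul_le_mul_of_nonneg_left (by linarith) (by positivity)
    calc (#A : ℝ) * (8 * τ ^ 4 / (k * ε ^ 2)) +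
          τ ^ 2 / 2 * (#A * η + 4 / (η * k ^ 2 * ε ^ 2) * ∑ n ∈ A, (∑ i, YY H f n (d i)) ^ 2) ≤
          #A * (8 * τ ^ 4 / (k * ε ^ 2)) + τ ^ 2 / 2 * (#A * η + #A * (12 / (ρ * η * k * ε ^ 3))) := by linarith
      _ = _ := by ring
  have hAC : ((#A : ℝ) : ℂ) ≠ 0 := by
    rw [Complex.ofReal_ne_zero]
    exact hA0.ne'
  have e4 : (∑ n ∈ A, cexp (((τ * ZZ H f d n : ℝ) : ℂ) * I)) / #A - ((Real.exp (-(τ ^ 2 / 2)) : ℝ) : ℂ) =
      ((∑ n ∈ A, cexp (((τ * ZZ H f d n : ℝ) : ℂ) * I) -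
        ∑ n ∈ A, (((∏ i, Real.cos (τ * f (d i) / sc k H f * mu (n + d i)) : ℝ) : ℂ))) +
      (∑ n ∈ A, (((∏ i, Real.cos (τ * f (d i) / sc k H f * mu (n + d i)) : ℝ) : ℂ)) -
        #A * ((Real.exp (-(τ ^ 2 / 2)) : ℝ) : ℂ))) / ((#A : ℝ) : ℂ) := by
    rw [Complex.ofReal_natCast] at hAC ⊢
    rw [sub_add_sub_cancel, sub_div, mul_div_cancel_left₀ _ hAC]
  rw [e4, norm_div, Complex.norm_real, Real.norm_eq_abs, abs_of_pos hA0, div_le_iff₀ hA0]
  refine (norm_add_le _ _).trans ?_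
  have h5 : (X : ℝ) / k ≤ 1 / (k * ε) * #A := by
    rw [div_mul_eq_mul_div, one_mul, div_le_div_iff₀ hk0 (by positivity)]
    nlinarith
  calc _ ≤ X / k + #A * (8 * τ ^ 4 / (k * ε ^ 2) + τ ^ 2 / 2 * (η + 12 / (ρ * η * k * ε ^ 3))) :=
        add_le_add h1 h2
    _ ≤ 1 / (k * ε) * #A + #A * (8 * τ ^ 4 / (k * ε ^ 2) + τ ^ 2 / 2 * (η + 12 / (ρ * η * k * ε ^ 3))) := by
        linarith
    _ = _ := by ring

end Pool.Agent.J4.H66.MG
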