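import Pool.Agent.TH823.MRS.Circ5

set_option autoImplicit false

/-! Averaged Chowla for tuples (from the work of Matomäki, Radziwiłł and Tao in `TH823.MRS`). -/

namespace Pool.Agent.J4.H66.MG
open Finset
open Pool.Agent.TH823.MRS
open Pool.Agent.H373R2.T7 (exI)

/-- the Möbius function as a real number -/
noncomputable def mu (n : ℕ) : ℝ := ((ArithmeticFunction.moebius n : ℤ) : ℝ)

lemma mu_abs (n : ℕ) : |mu n| ≤ 1 := by
  unfold mu
  have := ArithmeticFunction.abs_moebius_le_one (n := n)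
  rw [← Int.cast_abs]
  exact_mod_cast this

lemma mu_cases (n : ℕ) : mu n = -1 ∨ mu n = 0 ∨ mu n = 1 := by
  unfold mu
  have := ArithmeticFunction.abs_moebius_le_one (n := n)
  rw [abs_le] at this
  have h : ArithmeticFunction.moebius n = -1 ∨ ArithmeticFunction.moebius n = 0 ∨
    ArithmeticFunction.moebius n = 1 := by omega
  rcases h with h | h | h <;> rw [h] <;> simp

lemma one (δ : ℝ) (hδ : 0 < δ) : ∃ H₀ : ℕ, 1 ≤ H₀ ∧ ∀ H ≥ H₀, ∀ X ≥ H, ∀ g : ℕ → ℝ, (∀ n, |g n| ≤ 1) →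
    (#{m ∈ Icc 1 H | ¬ |∑ n ∈ Icc 1 (2 * X), g n * mu (n + m)| ≤ δ * X} : ℝ) ≤ δ * H := by
  obtain ⟨H₀, N₀, h1⟩ := pol (fun n => ((ArithmeticFunction.moebius n : ℤ) : ℂ)) mu_le mu_E 2 1 δ hδ
    (Polynomial.X : Polynomial ℤ) (by simp) 1
  refine ⟨H₀ + N₀ + 1, by omega, fun H hH X hX g hg => ?_⟩
  have h2 := h1 X H (by omega) (by omega) hX H (by simp) (by simp) (fun _ => 1) (fun _ => 0)
    (fun _ n => (g n : ℂ)) (by simp) (by intro l; positivity) (by
      intro l n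
      rw [Complex.norm_real]
      exact hg n)
  refine le_trans ?_ h2
  classical
  rw [nu_eq]
  apply Nat.cast_le.2
  apply card_le_card
  intro m hm
  rw [mem_filter] at hm ⊢
  refine ⟨hm.1, fun hcon => hm.2 ?_⟩
  have h3 := hcon 0 (2 * X) (by simp)
  have e : (∑ n ∈ Icc 1 (2 * X), (g n : ℂ) * exI (fun n => ((ArithmeticFunction.moebius n : ℤ) : ℂ))
      (((1 : ℕ) : ℤ) * n + 0 + (Polynomial.X : Polynomial ℤ).eval (m : ℤ))) =
      ((∑ n ∈ Icc 1 (2 * X), g n * mu (n + m) : ℝ) : ℂ) := by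
    push_cast
    apply sum_congr rfl
    intro n hn
    congr 1
    rw [Polynomial.eval_X, one_mul, add_zero]
    unfold exI mu
    rw [mem_Icc] at hn
    rw [if_pos (by omega)]
    have : ((n : ℤ) + (m : ℤ)).toNat = n + m := by omega
    rw [this]
    push_cast
    rfl
  rw [e, Complex.norm_real] at h3
  exact h3

variable {k : ℕ}

/-- the averaging over one coordinate -/
lemma avg (S : Finset ℕ) (i : Fin k) (F : (Fin k → ℕ) → ℝ) :
    ∑ d ∈ Fintype.piFinset (fun _ : Fin k => S), ∑ m ∈ S, F (Function.update d i m) =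
      #S * ∑ d ∈ Fintype.piFinset (fun _ : Fin k => S), F d := by
  classical
  have h1 : ∑ p ∈ Fintype.piFinset (fun _ : Fin k => S) ×ˢ S, F (Function.update p.1 i p.2) =
      ∑ p ∈ Fintype.piFinset (fun _ : Fin k => S) ×ˢ S, F p.1 := by
    have mem : ∀ p ∈ Fintype.piFinset (fun _ : Fin k => S) ×ˢ S,
        (Function.update p.1 i p.2, p.1 i) ∈ Fintype.piFinset (fun _ : Fin k => S) ×ˢ S := by
      intro p hp
      rw [mem_product, Fintype.mem_piFinset] at hp ⊢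
      refine ⟨fun j => ?_, hp.1 i⟩
      by_cases hj : j = i
      · subst hj
        simpa using hp.2
      · simpa [Function.update_of_ne hj] using hp.1 j
    have inv : ∀ p : (Fin k → ℕ) × ℕ, (Function.update (Function.update p.1 i p.2) i (p.1 i),
        (Function.update p.1 i p.2) i) = p := by
      intro p
      rw [Function.update_idem, Function.update_eq_self, Function.update_self]
    exact sum_nbij' (fun p => (Function.update p.1 i p.2, p.1 i)) (fun p => (Function.update p.1 i p.2, p.1 i))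
      mem mem (fun p _ => inv p) (fun p _ => inv p) (fun p _ => rfl)
  rw [sum_product, sum_product] at h1
  rw [h1, mul_sum]
  apply sum_congr rfl
  intro d _
  simp

lemma tup_one (δ : ℝ) (hδ : 0 < δ) : ∃ H₀ : ℕ, 1 ≤ H₀ ∧ ∀ H ≥ H₀, ∀ X ≥ H, ∀ A ⊆ Icc X (2 * X),
    ∀ (k : ℕ) (e : Fin k → Fin 3) (i : Fin k), e i = 1 →
    (#{d ∈ Fintype.piFinset (fun _ : Fin k => Icc 1 H) |
      ¬ |∑ n ∈ A, ∏ j, mu (n + d j) ^ (e j : ℕ)| ≤ δ * X} : ℝ) ≤ δ * (H : ℝ) ^ k := by
  classical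
  obtain ⟨H₀, h0, h1⟩ := one δ hδ
  refine ⟨H₀, h0, fun H hH X hX A hA k e i hi => ?_⟩
  set F : (Fin k → ℕ) → ℝ := fun d => if ¬ |∑ n ∈ A, ∏ j, mu (n + d j) ^ (e j : ℕ)| ≤ δ * X then 1 else 0
    with hF
  have h2 := avg (Icc 1 H) i F
  have h3 : (#{d ∈ Fintype.piFinset (fun _ : Fin k => Icc 1 H) |
      ¬ |∑ n ∈ A, ∏ j, mu (n + d j) ^ (e j : ℕ)| ≤ δ * X} : ℝ) =
      ∑ d ∈ Fintype.piFinset (fun _ : Fin k => Icc 1 H), F d := by
    rw [hF]
    simp only [sum_boole]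
  rw [h3]
  have h4 : ∀ d : Fin k → ℕ, ∑ m ∈ Icc 1 H, F (Function.update d i m) ≤ δ * H := by
    intro d
    have h5 := h1 H hH X hX (fun n => if n ∈ A then ∏ j ∈ univ.erase i, mu (n + d j) ^ (e j : ℕ) else 0) (by
      intro n
      split_ifs
      · rw [abs_prod]
        apply prod_le_one
        · intro j _
          positivity
        · intro j _
          rw [abs_pow]
          exact pow_le_one₀ (abs_nonneg _) (mu_abs _)
      · simp)
    refine le_trans (le_of_eq ?_) h5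
    rw [hF]
    simp only [sum_boole]
    congr 2
    apply filter_congr
    intro m _
    have e1 : ∑ n ∈ A, ∏ j, mu (n + Function.update d i m j) ^ (e j : ℕ) =
        ∑ n ∈ Icc 1 (2 * X), (if n ∈ A then ∏ j ∈ univ.erase i, mu (n + d j) ^ (e j : ℕ) else 0) * mu (n + m) := by
      have hA' : A ⊆ Icc 1 (2 * X) := hA.trans (Icc_subset_Icc (by omega) le_rfl)
      have e2 : ∀ n ∈ Icc 1 (2 * X), (if n ∈ A then ∏ j ∈ univ.erase i, mu (n + d j) ^ (e j : ℕ) else 0) *
          mu (n + m) = if n ∈ A then (∏ j ∈ univ.erase i, mu (n + d j) ^ (e j : ℕ)) * mu (n + m) else 0 := by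
        intro n _
        split_ifs <;> simp
      rw [sum_congr rfl e2, ← sum_filter, filter_mem_eq_inter, inter_eq_right.2 hA']
      apply sum_congr rfl
      intro n _
      rw [← mul_prod_erase univ _ (mem_univ i), Function.update_self, hi, mul_comm]
      congr 1
      · apply prod_congr rfl
        intro j hj
        rw [Function.update_of_ne (ne_of_mem_erase hj)]
      · simp
    rw [e1]
  have hH1 : (0 : ℝ) < H := by
    have : 1 ≤ H := by omega
    exact_mod_cast this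
  have h5 : (H : ℝ) * ∑ d ∈ Fintype.piFinset (fun _ : Fin k => Icc 1 H), F d ≤ H * (δ * (H : ℝ) ^ k) := by
    have h6 := sum_le_sum (s := Fintype.piFinset (fun _ : Fin k => Icc 1 H)) (fun d _ => h4 d)
    rw [h2] at h6
    simp only [Nat.card_Icc, add_tsub_cancel_right, sum_const, Fintype.card_piFinset_const, nsmul_eq_mul,
      Nat.cast_pow] at h6
    linarith
  exact le_of_mul_le_mul_left h5 hH1

/-- almost all the tuples have small correlations, for all the patterns -/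
lemma tup (k : ℕ) (δ : ℝ) (hδ : 0 < δ) : ∃ H₀ : ℕ, 1 ≤ H₀ ∧ ∀ H ≥ H₀, ∀ X ≥ H, ∀ A ⊆ Icc X (2 * X),
    (#{d ∈ Fintype.piFinset (fun _ : Fin k => Icc 1 H) |
      ¬ ∀ e : Fin k → Fin 3, (∃ i, e i = 1) → |∑ n ∈ A, ∏ j, mu (n + d j) ^ (e j : ℕ)| ≤ δ * X} : ℝ) ≤
      δ * (H : ℝ) ^ k := by
  classical
  obtain ⟨H₀, h0, h1⟩ := tup_one (δ / 3 ^ k) (by positivity)
  refine ⟨H₀, h0, fun H hH X hX A hA => ?_⟩
  have h2 : ({d ∈ Fintype.piFinset (fun _ : Fin k => Icc 1 H) |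
      ¬ ∀ e : Fin k → Fin 3, (∃ i, e i = 1) → |∑ n ∈ A, ∏ j, mu (n + d j) ^ (e j : ℕ)| ≤ δ * X}) ⊆
      (univ.filter (fun e : Fin k → Fin 3 => ∃ i, e i = 1)).biUnion (fun e =>
        ({d ∈ Fintype.piFinset (fun _ : Fin k => Icc 1 H) |
          ¬ |∑ n ∈ A, ∏ j, mu (n + d j) ^ (e j : ℕ)| ≤ δ / 3 ^ k * X})) := by
    intro d hd
    rw [mem_filter] at hd
    rw [mem_biUnion]
    obtain ⟨h3, h4⟩ := hd
    push Not at h4
    obtain ⟨e, he, h5⟩ := h4
    refine ⟨e, by simpa using he, mem_filter.2 ⟨h3, ?_⟩⟩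
    push Not
    refine lt_of_le_of_lt ?_ h5
    apply mul_le_mul_of_nonneg_right _ (Nat.cast_nonneg _)
    apply div_le_self hδ.le
    exact one_le_pow₀ (by norm_num)
  have h3 := card_le_card h2
  have h4 := h3.trans card_biUnion_le
  have h5 : (∑ e ∈ univ.filter (fun e : Fin k → Fin 3 => ∃ i, e i = 1),
      (#({d ∈ Fintype.piFinset (fun _ : Fin k => Icc 1 H) |
          ¬ |∑ n ∈ A, ∏ j, mu (n + d j) ^ (e j : ℕ)| ≤ δ / 3 ^ k * X}) : ℝ)) ≤
      ∑ e ∈ univ.filter (fun e : Fin k → Fin 3 => ∃ i, e i = 1), δ / 3 ^ k * (H : ℝ) ^ k := by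
    apply sum_le_sum
    intro e he
    rw [mem_filter] at he
    obtain ⟨i, hi⟩ := he.2
    exact h1 H hH X hX A hA k e i hi
  refine (by exact_mod_cast h4 : _ ≤ _).trans (h5.trans ?_)
  rw [sum_const, nsmul_eq_mul]
  have h6 : (#(univ.filter (fun e : Fin k → Fin 3 => ∃ i, e i = 1)) : ℝ) ≤ 3 ^ k := by
    have := card_le_card (filter_subset (fun e : Fin k → Fin 3 => ∃ i, e i = 1) univ)
    have h7 : #(univ : Finset (Fin k → Fin 3)) = 3 ^ k := by simp
    rw [h7] at this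
    exact_mod_cast this
  calc (#(univ.filter (fun e : Fin k → Fin 3 => ∃ i, e i = 1)) : ℝ) * (δ / 3 ^ k * (H : ℝ) ^ k) ≤
        3 ^ k * (δ / 3 ^ k * (H : ℝ) ^ k) := mul_le_mul_of_nonneg_right h6 (by positivity)
    _ = δ * (H : ℝ) ^ k := by field_simp

end Pool.Agent.J4.H66.MG
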