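import Pool.Agent.J4.H66.MG.Char

set_option autoImplicit false

/-! From the characteristic functions to the laws. -/

namespace Pool.Agent.J4.H66.MG
open Finset Filter Topology Complex MeasureTheory ProbabilityTheory

/-- the law of a function on a finite set -/
noncomputable def emp (A : Finset ℕ) (Z : ℕ → ℝ) : Measure ℝ :=
  (#A : ENNReal)⁻¹ • ∑ n ∈ A, Measure.dirac (Z n)

lemma emp_prob (A : Finset ℕ) (hA : A.Nonempty) (Z : ℕ → ℝ) : IsProbabilityMeasure (emp A Z) := by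
  constructor
  unfold emp
  simp only [Measure.smul_apply, Measure.coe_finsetSum, Finset.sum_apply, measure_univ, Finset.sum_const,
    nsmul_eq_mul, mul_one, smul_eq_mul]
  apply ENNReal.inv_mul_cancel
  · simp only [ne_eq, Nat.cast_eq_zero, card_eq_zero]
    exact hA.ne_empty
  · simp

lemma emp_char (A : Finset ℕ) (Z : ℕ → ℝ) (τ : ℝ) :
    charFun (emp A Z) τ = (∑ n ∈ A, cexp (((τ * Z n : ℝ) : ℂ) * I)) / #A := by
  rw [charFun_apply_real]
  unfold emp
  rw [integral_smul_measure, integral_finsetSum_measure]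
  · rw [ENNReal.toReal_inv, ENNReal.toReal_natCast, div_eq_inv_mul, Complex.real_smul]
    push_cast
    congr 1
    apply Finset.sum_congr rfl
    intro n _
    rw [integral_dirac]
  · intro n _
    exact integrable_dirac' (Measurable.stronglyMeasurable (by fun_prop)) (by simp)

lemma emp_Iic (A : Finset ℕ) (Z : ℕ → ℝ) (t : ℝ) :
    (emp A Z).real (Set.Iic t) = (#{n ∈ A | Z n ≤ t} : ℝ) / #A := by
  classical
  unfold emp Measure.real
  have e : (∑ n ∈ A, Measure.dirac (Z n)) (Set.Iic t) = (#{n ∈ A | Z n ≤ t} : ENNReal) := by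
    rw [Measure.coe_finsetSum, Finset.sum_apply]
    have : ∀ n ∈ A, (Measure.dirac (Z n)) (Set.Iic t) = if Z n ≤ t then 1 else 0 := by
      intro n _
      rw [Measure.dirac_apply' _ measurableSet_Iic, Set.indicator_apply]
      simp
    rw [sum_congr rfl this, sum_boole]
  rw [Measure.smul_apply, smul_eq_mul, ENNReal.toReal_mul, e, ENNReal.toReal_inv, ENNReal.toReal_natCast,
    ENNReal.toReal_natCast, div_eq_inv_mul]

/-- the gaussian distribution function -/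
noncomputable def Phi (t : ℝ) : ℝ := (gaussianReal 0 1).real (Set.Iic t)

lemma Phi_cdf : Phi = fun t => cdf (gaussianReal 0 1) t := by
  funext t
  rw [cdf_eq_real]
  rfl

lemma Phi_cont : Continuous Phi := by
  rw [Phi_cdf]
  have := nullSingletonClass_gaussianReal (μ := 0) (v := 1) one_ne_zero
  refine continuous_iff_continuousAt.2 fun a => ?_
  change ContinuousAt (cdf (gaussianReal 0 1)) a
  rw [(monotone_cdf (gaussianReal 0 1)).continuousAt_iff_leftLim_eq_rightLim, StieltjesFunction.rightLim_eq]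
  have h1 : (cdf (gaussianReal 0 1)).measure {a} = 0 := by rw [measure_cdf]; simp
  rw [StieltjesFunction.measure_singleton] at h1
  have h2 : Function.leftLim (cdf (gaussianReal 0 1)) a ≤ cdf (gaussianReal 0 1) a :=
    (monotone_cdf (gaussianReal 0 1)).leftLim_le le_rfl
  have h3 := ENNReal.ofReal_eq_zero.1 h1
  linarith

lemma Phi_mono : Monotone Phi := by
  rw [Phi_cdf]
  exact monotone_cdf _

lemma Phi_surj (y : ℝ) (h0 : 0 < y) (h1 : y < 1) : ∃ t, Phi t = y := by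
  have hb : ∃ a, Phi a ≤ y := by
    rw [Phi_cdf]
    exact ((tendsto_cdf_atBot _).eventually (Iic_mem_nhds h0)).exists
  have ht : ∃ a, y ≤ Phi a := by
    rw [Phi_cdf]
    exact ((tendsto_cdf_atTop _).eventually (Ici_mem_nhds h1)).exists
  exact mem_range_of_exists_le_of_exists_ge Phi_cont hb ht

lemma Phi_mem (t : ℝ) : 0 ≤ Phi t ∧ Phi t ≤ 1 := by
  rw [Phi_cdf]
  exact ⟨cdf_nonneg _ _, cdf_le_one _ _⟩

/-- uniform convergence of the distribution functions -/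
lemma polya (F : ℕ → ℝ → ℝ) (hm : ∀ m, Monotone (F m)) (h0 : ∀ m t, 0 ≤ F m t) (h1 : ∀ m t, F m t ≤ 1)
    (h : ∀ t, Tendsto (fun m => F m t) atTop (𝓝 (Phi t))) (ε : ℝ) (hε : 0 < ε) :
    ∃ M : ℕ, ∀ m ≥ M, ∀ t, |F m t - Phi t| ≤ ε := by
  obtain ⟨r, hr⟩ := exists_nat_gt (3 / ε)
  have hr0 : (0 : ℝ) < r := lt_trans (by positivity) hr
  have hrn : 0 < r := by exact_mod_cast hr0
  have hr2 : 3 / (r : ℝ) ≤ ε := by
    rw [div_le_iff₀ hr0]
    rw [div_lt_iff₀ hε] at hr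
    linarith
  have ex : ∀ j : ℕ, ∃ u : ℝ, 0 < j → j < r → Phi u = j / r := by
    intro j
    by_cases hj : 0 < j ∧ j < r
    · obtain ⟨u, hu⟩ := Phi_surj (j / r) (div_pos (by exact_mod_cast hj.1) hr0)
        (by rw [div_lt_one hr0]; exact_mod_cast hj.2)
      exact ⟨u, fun _ _ => hu⟩
    · exact ⟨0, fun h1 h2 => absurd ⟨h1, h2⟩ hj⟩
  choose u hu using ex
  have hev : ∀ᶠ m in atTop, ∀ j ∈ range r, |F m (u j) - Phi (u j)| ≤ 1 / r := by
    rw [Filter.eventually_all_finset]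
    intro j _
    have h2 := (Metric.tendsto_atTop.1 (h (u j))) (1 / r) (by positivity)
    obtain ⟨N, hN⟩ := h2
    filter_upwards [eventually_ge_atTop N] with m hm
    exact (hN m hm).le
  obtain ⟨M, hM⟩ := eventually_atTop.1 hev
  refine ⟨M, fun m hm' t => ?_⟩
  have hMm := hM m hm'
  obtain ⟨j, hj⟩ : ∃ j : ℕ, j = ⌊Phi t * r⌋₊ := ⟨_, rfl⟩
  have hP := Phi_mem t
  have hj1 : (j : ℝ) ≤ Phi t * r := by rw [hj]; exact Nat.floor_le (mul_nonneg hP.1 hr0.le)
  have hj2 : Phi t * r < j + 1 := by rw [hj]; exact Nat.lt_floor_add_one _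
  have hup : F m t ≤ Phi t + 2 / r := by
    by_cases hjr : j + 1 < r
    · have h3 := hu (j + 1) (by omega) hjr
      have h4 := (abs_le.1 (hMm (j + 1) (mem_range.2 hjr))).2
      have h5 : t ≤ u (j + 1) := by
        by_contra hcon
        have := Phi_mono (not_le.1 hcon).le
        rw [h3] at this
        rw [div_le_iff₀ hr0] at this
        push_cast at this
        linarith
      have h6 := hm m h5
      rw [h3] at h4
      have h7 : (((j + 1 : ℕ) : ℝ)) / r ≤ Phi t + 1 / r := by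
        push_cast
        rw [add_div]
        have : (j : ℝ) / r ≤ Phi t := by rwa [div_le_iff₀ hr0]
        linarith
      have : 2 / (r : ℝ) = 1 / r + 1 / r := by ring
      linarith
    · have h3 : (r : ℝ) ≤ j + 1 := by exact_mod_cast not_lt.1 hjr
      have h4 : 1 ≤ Phi t + 1 / r := by
        have h5 : (r : ℝ) - 1 ≤ Phi t * r := by linarith
        have h6 : ((r : ℝ) - 1) / r ≤ Phi t := by rwa [div_le_iff₀ hr0]
        rw [sub_div, div_self hr0.ne'] at h6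
        linarith
      have : 1 / (r : ℝ) ≤ 2 / r := by
        apply div_le_div_of_nonneg_right _ hr0.le
        norm_num
      linarith [h1 m t]
  have hlow : Phi t - 3 / r ≤ F m t := by
    have e3 : 3 / (r : ℝ) = 1 / r + 1 / r + 1 / r := by ring
    have p1 : 0 < 1 / (r : ℝ) := by positivity
    by_cases hj0 : 2 ≤ j
    · have hjr : j - 1 < r := by
        have : (j : ℝ) ≤ r := hj1.trans (mul_le_of_le_one_left hr0.le hP.2)
        have : j ≤ r := by exact_mod_cast this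
        omega
      have hc : ((j - 1 : ℕ) : ℝ) = j - 1 := by
        rw [Nat.cast_sub (by omega)]
        simp
      have h3 := hu (j - 1) (by omega) hjr
      have h4 := (abs_le.1 (hMm (j - 1) (mem_range.2 hjr))).1
      have h5 : u (j - 1) ≤ t := by
        by_contra hcon
        have := Phi_mono (not_le.1 hcon).le
        rw [h3, hc, le_div_iff₀ hr0] at this
        linarith
      have h6 := hm m h5
      rw [h3, hc, sub_div] at h4
      have h7 : Phi t ≤ (j : ℝ) / r + 1 / r := by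
        rw [← add_div, le_div_iff₀ hr0]
        exact hj2.le
      linarith
    · have h3 : (j : ℝ) ≤ 1 := by exact_mod_cast (by omega : j ≤ 1)
      have h4 : Phi t ≤ 2 / r := by
        rw [le_div_iff₀ hr0]
        linarith
      have : 2 / (r : ℝ) = 1 / r + 1 / r := by ring
      linarith [h0 m t]
  have h23 : 2 / (r : ℝ) ≤ 3 / r := by
    apply div_le_div_of_nonneg_right _ hr0.le
    norm_num
  rw [abs_le]
  constructor <;> linarith

lemma levy_unif (A : ℕ → Finset ℕ) (hA : ∀ m, (A m).Nonempty) (Z : ℕ → ℕ → ℝ)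
    (h : ∀ τ : ℝ, Tendsto (fun m => (∑ n ∈ A m, cexp (((τ * Z m n : ℝ) : ℂ) * I)) / #(A m)) atTop
      (𝓝 ((Real.exp (-(τ ^ 2 / 2)) : ℝ) : ℂ))) (ε : ℝ) (hε : 0 < ε) :
    ∃ M : ℕ, ∀ m ≥ M, ∀ t, |(#{n ∈ A m | Z m n ≤ t} : ℝ) / #(A m) - Phi t| ≤ ε := by
  have hp : ∀ m, IsProbabilityMeasure (emp (A m) (Z m)) := fun m => emp_prob _ (hA m) _
  obtain ⟨P, hP⟩ : ∃ P : ℕ → ProbabilityMeasure ℝ, ∀ m, (P m : Measure ℝ) = emp (A m) (Z m) :=
    ⟨fun m => ⟨emp (A m) (Z m), hp m⟩, fun m => rfl⟩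
  obtain ⟨G, hG⟩ : ∃ G : ProbabilityMeasure ℝ, (G : Measure ℝ) = gaussianReal 0 1 :=
    ⟨⟨gaussianReal 0 1, (inferInstance : IsProbabilityMeasure (gaussianReal 0 1))⟩, rfl⟩
  have hlim : Tendsto P atTop (𝓝 G) := by
    refine ProbabilityMeasure.tendsto_of_tendsto_charFun fun τ => ?_
    have e1 : charFun (G : Measure ℝ) τ = ((Real.exp (-(τ ^ 2 / 2)) : ℝ) : ℂ) := by
      rw [hG, charFun_gaussianReal]
      push_cast
      congr 1
      ring
    rw [e1]
    simp only [hP, emp_char]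
    exact h τ
  have hF : ∀ t, Tendsto (fun m => (emp (A m) (Z m)).real (Set.Iic t)) atTop (𝓝 (Phi t)) := by
    intro t
    have h1 := ProbabilityMeasure.tendsto_measure_of_null_frontier_of_tendsto' hlim (E := Set.Iic t) (by
      have := nullSingletonClass_gaussianReal (μ := 0) (v := 1) one_ne_zero
      rw [hG, frontier_Iic]
      simp)
    have h2 := (ENNReal.tendsto_toReal (measure_ne_top (G : Measure ℝ) (Set.Iic t))).comp h1
    rw [hG] at h2
    refine h2.congr (fun m => ?_)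
    simp only [Function.comp, hP]
    rfl
  obtain ⟨M, hM⟩ := polya (fun m t => (emp (A m) (Z m)).real (Set.Iic t))
    (fun m s t hst => measureReal_mono (Set.Iic_subset_Iic.2 hst))
    (fun m t => measureReal_nonneg) (fun m t => measureReal_le_one) hF ε hε
  refine ⟨M, fun m hm t => ?_⟩
  have := hM m hm t
  rwa [emp_Iic] at this

/-- small correlations and a concentrated variance give the gaussian law -/
lemma det (ε ρ : ℝ) (hε : 0 < ε) (hρ : 0 < ρ) : ∃ k₀ : ℕ, 1 ≤ k₀ ∧ ∀ k ≥ k₀, ∀ (H : ℕ) (f : ℕ → ℝ),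
    (∀ d, |f d| ≤ 1) → ε ≤ sg H f → ∀ (A : Finset ℕ) (X : ℕ), 1 ≤ X → ε * X ≤ #A → ∀ d : Fin k → ℕ,
    (∀ e : Fin k → Fin 3, (∃ i, e i = 1) → |∑ n ∈ A, ∏ j, mu (n + d j) ^ (e j : ℕ)| ≤ 1 / (k * 6 ^ k) * X) →
    ∑ n ∈ A, (∑ i, YY H f n (d i)) ^ 2 ≤ 3 * k / ρ * X →
    ∀ t : ℝ, |(#{n ∈ A | ZZ H f d n ≤ t} : ℝ) / #A - Phi t| ≤ ε := by
  by_contra hcon
  push Not at hcon
  have hc : ∀ m : ℕ, ∃ k : ℕ, m + 1 ≤ k ∧ ∃ (H : ℕ) (f : ℕ → ℝ), (∀ d, |f d| ≤ 1) ∧ ε ≤ sg H f ∧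
      ∃ (A : Finset ℕ) (X : ℕ), 1 ≤ X ∧ ε * X ≤ #A ∧ ∃ d : Fin k → ℕ,
      (∀ e : Fin k → Fin 3, (∃ i, e i = 1) → |∑ n ∈ A, ∏ j, mu (n + d j) ^ (e j : ℕ)| ≤ 1 / (k * 6 ^ k) * X) ∧
      ∑ n ∈ A, (∑ i, YY H f n (d i)) ^ 2 ≤ 3 * k / ρ * X ∧
      ∃ t : ℝ, ε < |(#{n ∈ A | ZZ H f d n ≤ t} : ℝ) / #A - Phi t| := fun m => hcon (m + 1) (by omega)
  choose k hk H f hf hsg A X hX hA d hP1 hP2 t ht using hc
  have hAn : ∀ m, (A m).Nonempty := by
    intro m
    rw [← card_pos]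
    have h1 : (1 : ℝ) ≤ X m := by exact_mod_cast hX m
    have h2 : (0 : ℝ) < #(A m) := lt_of_lt_of_le (by positivity) (hA m)
    exact_mod_cast h2
  have hlim : ∀ τ : ℝ, Tendsto (fun m => (∑ n ∈ A m, cexp (((τ * ZZ (H m) (f m) (d m) n : ℝ) : ℂ) * I)) / #(A m))
      atTop (𝓝 ((Real.exp (-(τ ^ 2 / 2)) : ℝ) : ℂ)) := by
    intro τ
    rw [Metric.tendsto_atTop]
    intro γ hγ
    obtain ⟨η, hη⟩ : ∃ η : ℝ, η = γ / (τ ^ 2 + 1) := ⟨_, rfl⟩
    have hη0 : 0 < η := by rw [hη]; positivity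
    obtain ⟨C, hC⟩ : ∃ C : ℝ, C = 1 / ε + 8 * τ ^ 4 / ε ^ 2 + τ ^ 2 / 2 * (12 / (ρ * η * ε ^ 3)) := ⟨_, rfl⟩
    have hC0 : 0 < C := by rw [hC]; positivity
    obtain ⟨N, hN⟩ := exists_nat_gt (2 * C / γ)
    refine ⟨N, fun m hm => ?_⟩
    have hkm : (N : ℝ) ≤ k m := by
      have := hk m
      exact_mod_cast (by omega : N ≤ k m)
    have hkm0 : (0 : ℝ) < k m := by
      have := hk m
      exact_mod_cast (by omega : 0 < k m)
    rw [dist_eq_norm]
    have h1 := char_main (by have := hk m; omega) (H m) (f m) (hf m) ε hε (hsg m) (A m) (X m) (hX m) (hA m) (d m)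
      ρ hρ (hP1 m) (hP2 m) τ η hη0
    refine lt_of_le_of_lt h1 ?_
    have e1 : 1 / (k m * ε) + 8 * τ ^ 4 / (k m * ε ^ 2) + τ ^ 2 / 2 * (η + 12 / (ρ * η * k m * ε ^ 3)) =
        τ ^ 2 / 2 * η + C / k m := by
      rw [hC]
      field_simp
      ring
    rw [e1]
    have h2 : C / k m < γ / 2 := by
      rw [div_lt_iff₀ hkm0]
      rw [div_lt_iff₀ hγ] at hN
      nlinarith
    have h3 : τ ^ 2 / 2 * η ≤ γ / 2 := by
      rw [hη, div_mul_div_comm, div_le_div_iff₀ (by positivity) (by norm_num)]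
      nlinarith [sq_nonneg τ]
    linarith
  obtain ⟨M, hM⟩ := levy_unif A hAn (fun m => ZZ (H m) (f m) (d m)) hlim ε hε
  exact absurd (hM M le_rfl (t M)) (not_le.2 (ht M))

end Pool.Agent.J4.H66.MG
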