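import Pool.Agent.J4.H66.MG.Law

set_option autoImplicit false

/-! The main theorem. -/

namespace Pool.Agent.J4.H66.MG
open Finset

/-- the number of the tuples is at most twice the number of the injective ones -/
lemma pow_le_choose (k : ℕ) (H : ℕ) (hH : 2 * k ^ 2 + 1 ≤ H) :
    (H : ℝ) ^ k ≤ 2 * (k.factorial * (H.choose k : ℝ)) := by
  have hH0 : (0 : ℝ) < H := by exact_mod_cast (by omega : 0 < H)
  have hkH : k ≤ H := by nlinarith
  have h1 : (((H + 1 - k : ℕ) : ℝ)) ^ k ≤ k.factorial * (H.choose k : ℝ) := by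
    have := Nat.pow_sub_le_descFactorial H k
    rw [Nat.descFactorial_eq_factorial_mul_choose] at this
    exact_mod_cast this
  have h2 : (H : ℝ) ^ k * (1 / 2) ≤ (((H + 1 - k : ℕ) : ℝ)) ^ k := by
    have e : ((H + 1 - k : ℕ) : ℝ) = H * (1 + (1 - k) / H) := by
      rw [Nat.cast_sub (by omega)]
      push_cast
      field_simp
      ring
    rw [e, mul_pow]
    apply mul_le_mul_of_nonneg_left _ (by positivity)
    have hHk : 2 * (k : ℝ) ^ 2 + 1 ≤ H := by exact_mod_cast hH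
    have h3 : -2 ≤ (1 - (k : ℝ)) / H := by
      rw [le_div_iff₀ hH0]
      nlinarith [sq_nonneg ((k : ℝ) - 1)]
    refine le_trans ?_ (one_add_mul_le_pow h3 k)
    have h4 : -(1 / 2) ≤ (k : ℝ) * ((1 - k) / H) := by
      rw [← mul_div_assoc, le_div_iff₀ hH0]
      nlinarith [(Nat.cast_nonneg k : (0 : ℝ) ≤ k)]
    linarith
  linarith

/-- the tuple of a set and a permutation -/
noncomputable def tp (k : ℕ) (D : Finset ℕ) (π : Equiv.Perm (Fin k)) : Fin k → ℕ :=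
  fun i => if h : #D = k then D.orderEmbOfFin h (π i) else 0

lemma tp_mem (k : ℕ) (D : Finset ℕ) (h : #D = k) (π : Equiv.Perm (Fin k)) (i : Fin k) : tp k D π i ∈ D := by
  unfold tp
  rw [dif_pos h]
  exact D.orderEmbOfFin_mem h _

lemma tp_sum (k : ℕ) (D : Finset ℕ) (h : #D = k) (π : Equiv.Perm (Fin k)) (F : ℕ → ℝ) :
    ∑ i, F (tp k D π i) = ∑ x ∈ D, F x := by
  unfold tp
  simp only [h, dif_pos]
  rw [Equiv.sum_comp π (fun i => F (D.orderEmbOfFin h i)), ← sum_coe_sort D]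
  exact Fintype.sum_equiv (D.orderIsoOfFin h).toEquiv _ _ (fun i => rfl)

lemma tp_inj (k : ℕ) (D D' : Finset ℕ) (h : #D = k) (h' : #D' = k) (π π' : Equiv.Perm (Fin k))
    (e : tp k D π = tp k D' π') : D = D' ∧ π = π' := by
  have img : ∀ (D : Finset ℕ) (h : #D = k) (π : Equiv.Perm (Fin k)) (x : ℕ), x ∈ D ↔ ∃ i, tp k D π i = x := by
    intro D h π x
    constructor
    · intro hx
      have h1 := D.range_orderEmbOfFin h
      have h2 : x ∈ Set.range (D.orderEmbOfFin h) := by rw [h1]; exact hx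
      obtain ⟨j, hj⟩ := h2
      refine ⟨π.symm j, ?_⟩
      unfold tp
      rw [dif_pos h, Equiv.apply_symm_apply]
      exact hj
    · rintro ⟨i, rfl⟩
      exact tp_mem k D h π i
  have hD : D = D' := by
    ext x
    rw [img D h π x, img D' h' π' x, e]
  subst hD
  refine ⟨rfl, ?_⟩
  ext i
  have := congrFun e i
  unfold tp at this
  rw [dif_pos h, dif_pos h] at this
  have h2 := (D.orderEmbOfFin h).injective this
  rw [h2]

lemma subs (k H : ℕ) (B : Finset ℕ → Prop) [DecidablePred B] (E : (Fin k → ℕ) → Prop) [DecidablePred E]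
    (h : ∀ D, #D = k → D ⊆ Icc 1 H → B D → ∀ π, E (tp k D π)) :
    #{D ∈ (Icc 1 H).powersetCard k | B D} * k.factorial ≤ #{d ∈ box k H | E d} := by
  have h1 : #({D ∈ (Icc 1 H).powersetCard k | B D} ×ˢ (univ : Finset (Equiv.Perm (Fin k)))) =
      #{D ∈ (Icc 1 H).powersetCard k | B D} * k.factorial := by
    rw [card_product, card_univ, Fintype.card_perm, Fintype.card_fin]
  rw [← h1]
  apply card_le_card_of_injOn (fun p => tp k p.1 p.2)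
  · intro p hp
    rw [mem_coe, mem_product, mem_filter, mem_powersetCard] at hp
    obtain ⟨⟨⟨h2, h3⟩, h4⟩, -⟩ := hp
    rw [mem_coe, mem_filter]
    refine ⟨?_, h p.1 h3 h2 h4 p.2⟩
    unfold box
    rw [Fintype.mem_piFinset]
    intro i
    exact h2 (tp_mem k p.1 h3 p.2 i)
  · intro p hp q hq e
    rw [mem_coe, mem_product, mem_filter, mem_powersetCard] at hp hq
    obtain ⟨h2, h3⟩ := tp_inj k p.1 q.1 hp.1.1.2 hq.1.1.2 p.2 q.2 e
    exact Prod.ext h2 h3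

open Classical in
theorem main (ε V : ℝ) (hε : 0 < ε) : ∃ k₀ : ℕ, ∀ k ≥ k₀, ∃ H₀ : ℕ, ∀ H ≥ H₀, ∀ X ≥ H,
    ∀ A ⊆ Icc X (2 * X), ε * X ≤ #A → ∀ f : ℕ → ℝ, (∀ d, |f d| ≤ 1) →
    ∑ d ∈ Ico 1 H, |f (d + 1) - f d| ≤ V → ε ≤ sg H f →
    (#{D ∈ (Icc 1 H).powersetCard k | ¬ ∀ t : ℝ,
      |(#{n ∈ A | ∑ d ∈ D, f d * mu (n + d) ≤ t * sc k H f} : ℝ) / #A - Phi t| ≤ ε} : ℝ) ≤
      ε * H.choose k := by
  classical
  obtain ⟨k₀, hk₀, hdet⟩ := det ε (ε / 4) hε (by positivity)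
  refine ⟨k₀, fun k hk => ?_⟩
  have hk1 : 1 ≤ k := by omega
  have hk0 : (0 : ℝ) < k := by exact_mod_cast hk1
  obtain ⟨δ, hδ⟩ : ∃ δ : ℝ, δ = min (ε / 4) (1 / (k * 6 ^ k)) := ⟨_, rfl⟩
  have hδ0 : 0 < δ := by rw [hδ]; exact lt_min (by positivity) (by positivity)
  have hδ1 : δ ≤ ε / 4 := by rw [hδ]; exact min_le_left _ _
  have hδ2 : δ ≤ 1 / (k * 6 ^ k) := by rw [hδ]; exact min_le_right _ _
  obtain ⟨H₁, -, h1⟩ := tup k δ hδ0
  obtain ⟨H₂, -, h2⟩ := secd k hk1 (ε / 4) (max V 0) (by positivity) (le_max_right _ _)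
  refine ⟨H₁ + H₂ + 2 * k ^ 2 + 1, fun H hH X hX A hA hAc f hf hfV hsg => ?_⟩
  have h3 := h1 H (by omega) X hX A hA
  have h4 := h2 H (by omega) X hX A hA f hf (hfV.trans (le_max_left _ _))
  have hX1 : 1 ≤ X := by omega
  have hcard := subs k H (fun D => ¬ ∀ t : ℝ,
      |(#{n ∈ A | ∑ d ∈ D, f d * mu (n + d) ≤ t * sc k H f} : ℝ) / #A - Phi t| ≤ ε)
    (fun d => ¬ ((∀ e : Fin k → Fin 3, (∃ i, e i = 1) → |∑ n ∈ A, ∏ j, mu (n + d j) ^ (e j : ℕ)| ≤ δ * X) ∧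
      ∑ n ∈ A, (∑ i, YY H f n (d i)) ^ 2 ≤ 3 * k / (ε / 4) * X)) (by
    intro D hD hDH hB π hcon
    apply hB
    intro t
    have h5 := hdet k hk H f hf hsg A X hX1 hAc (tp k D π) (fun e he => (hcon.1 e he).trans
      (mul_le_mul_of_nonneg_right hδ2 (Nat.cast_nonneg _))) hcon.2 t
    have hsc : 0 < sc k H f := by
      apply Real.sqrt_pos.2
      have := cc_pos
      have : 0 < sg H f := lt_of_lt_of_le hε hsg
      positivity
    have e1 : {n ∈ A | ZZ H f (tp k D π) n ≤ t} = {n ∈ A | ∑ d ∈ D, f d * mu (n + d) ≤ t * sc k H f} := by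
      apply filter_congr
      intro n _
      unfold ZZ
      rw [div_le_iff₀ hsc, tp_sum k D hD π (fun x => f x * mu (n + x))]
    rw [e1] at h5
    exact h5)
  have hE : (#{d ∈ box k H | ¬ ((∀ e : Fin k → Fin 3, (∃ i, e i = 1) →
      |∑ n ∈ A, ∏ j, mu (n + d j) ^ (e j : ℕ)| ≤ δ * X) ∧
      ∑ n ∈ A, (∑ i, YY H f n (d i)) ^ 2 ≤ 3 * k / (ε / 4) * X)} : ℝ) ≤ ε / 2 * (H : ℝ) ^ k := by
    have h5 : {d ∈ box k H | ¬ ((∀ e : Fin k → Fin 3, (∃ i, e i = 1) →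
      |∑ n ∈ A, ∏ j, mu (n + d j) ^ (e j : ℕ)| ≤ δ * X) ∧
      ∑ n ∈ A, (∑ i, YY H f n (d i)) ^ 2 ≤ 3 * k / (ε / 4) * X)} ⊆
      {d ∈ box k H | ¬ ∀ e : Fin k → Fin 3, (∃ i, e i = 1) →
      |∑ n ∈ A, ∏ j, mu (n + d j) ^ (e j : ℕ)| ≤ δ * X} ∪
      {d ∈ box k H | ¬ ∑ n ∈ A, (∑ i, YY H f n (d i)) ^ 2 ≤ 3 * k / (ε / 4) * X} := by
      intro d hd
      rw [mem_filter] at hd
      rw [mem_union, mem_filter, mem_filter]
      by_cases hc : ∀ e : Fin k → Fin 3, (∃ i, e i = 1) → |∑ n ∈ A, ∏ j, mu (n + d j) ^ (e j : ℕ)| ≤ δ * X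
      · exact Or.inr ⟨hd.1, fun h => hd.2 ⟨hc, h⟩⟩
      · exact Or.inl ⟨hd.1, hc⟩
    have h6 := (card_le_card h5).trans (card_union_le _ _)
    have h7 : (#{d ∈ box k H | ¬ ((∀ e : Fin k → Fin 3, (∃ i, e i = 1) →
      |∑ n ∈ A, ∏ j, mu (n + d j) ^ (e j : ℕ)| ≤ δ * X) ∧
      ∑ n ∈ A, (∑ i, YY H f n (d i)) ^ 2 ≤ 3 * k / (ε / 4) * X)} : ℝ) ≤
      (#{d ∈ box k H | ¬ ∀ e : Fin k → Fin 3, (∃ i, e i = 1) →
      |∑ n ∈ A, ∏ j, mu (n + d j) ^ (e j : ℕ)| ≤ δ * X} : ℝ) +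
      (#{d ∈ box k H | ¬ ∑ n ∈ A, (∑ i, YY H f n (d i)) ^ 2 ≤ 3 * k / (ε / 4) * X} : ℝ) := by
      exact_mod_cast h6
    have h8 : δ * (H : ℝ) ^ k ≤ ε / 4 * (H : ℝ) ^ k := mul_le_mul_of_nonneg_right hδ1 (by positivity)
    have h9 : (#{d ∈ box k H | ¬ ∀ e : Fin k → Fin 3, (∃ i, e i = 1) →
      |∑ n ∈ A, ∏ j, mu (n + d j) ^ (e j : ℕ)| ≤ δ * X} : ℝ) ≤ δ * (H : ℝ) ^ k := h3
    linarith
  have hfac : (0 : ℝ) < k.factorial := by exact_mod_cast k.factorial_pos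
  have hpc := pow_le_choose k H (by omega)
  have h5 : (#{D ∈ (Icc 1 H).powersetCard k | ¬ ∀ t : ℝ,
      |(#{n ∈ A | ∑ d ∈ D, f d * mu (n + d) ≤ t * sc k H f} : ℝ) / #A - Phi t| ≤ ε} : ℝ) * k.factorial ≤
      ε / 2 * (H : ℝ) ^ k := by
    refine le_trans ?_ hE
    exact_mod_cast hcard
  have h6 : ε / 2 * (H : ℝ) ^ k ≤ ε * H.choose k * k.factorial := by
    calc ε / 2 * (H : ℝ) ^ k ≤ ε / 2 * (2 * (k.factorial * (H.choose k : ℝ))) :=
          mul_le_mul_of_nonneg_left hpc (by positivity)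
      _ = _ := by ring
  exact le_of_mul_le_mul_right (h5.trans h6) hfac

end Pool.Agent.J4.H66.MG
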