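import Pool.Agent.J4.H66.MG.Sqf

set_option autoImplicit false

/-! The second moment over the tuples. -/

namespace Pool.Agent.J4.H66.MG
open Finset Filter Topology

variable {k : ℕ}

/-- the tuples -/
noncomputable def box (k H : ℕ) : Finset (Fin k → ℕ) := Fintype.piFinset (fun _ : Fin k => Icc 1 H)

lemma box_card (k H : ℕ) : (#(box k H) : ℝ) = (H : ℝ) ^ k := by
  unfold box
  simp

lemma box_avg (H : ℕ) (i : Fin k) (F : (Fin k → ℕ) → ℝ) :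
    ∑ d ∈ box k H, ∑ m ∈ Icc 1 H, F (Function.update d i m) = H * ∑ d ∈ box k H, F d := by
  have h := avg (Icc 1 H) i F
  simpa [box] using h

lemma one_coord (H : ℕ) (i : Fin k) (Y : ℕ → ℝ) :
    (H : ℝ) * ∑ d ∈ box k H, Y (d i) = (∑ m ∈ Icc 1 H, Y m) * (H : ℝ) ^ k := by
  rw [← box_avg H i (fun d => Y (d i))]
  simp only [Function.update_self, sum_const, nsmul_eq_mul, box_card]
  ring

lemma two_coord (H : ℕ) (i j : Fin k) (hij : i ≠ j) (Y : ℕ → ℝ) :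
    (H : ℝ) ^ 2 * ∑ d ∈ box k H, Y (d i) * Y (d j) = (∑ m ∈ Icc 1 H, Y m) ^ 2 * (H : ℝ) ^ k := by
  have h1 := box_avg H i (fun d => Y (d i) * Y (d j))
  simp only [Function.update_self, Function.update_of_ne hij.symm] at h1
  have h2 : ∑ d ∈ box k H, ∑ m ∈ Icc 1 H, Y m * Y (d j) = (∑ m ∈ Icc 1 H, Y m) * ∑ d ∈ box k H, Y (d j) := by
    rw [mul_sum]
    apply sum_congr rfl
    intro d _
    rw [sum_mul]
  rw [h2] at h1
  have h3 := one_coord H j Y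
  calc (H : ℝ) ^ 2 * ∑ d ∈ box k H, Y (d i) * Y (d j) = H * (H * ∑ d ∈ box k H, Y (d i) * Y (d j)) := by ring
    _ = H * ((∑ m ∈ Icc 1 H, Y m) * ∑ d ∈ box k H, Y (d j)) := by rw [h1]
    _ = (∑ m ∈ Icc 1 H, Y m) * (H * ∑ d ∈ box k H, Y (d j)) := by ring
    _ = _ := by rw [h3]; ring

lemma second (H : ℕ) (hH : 1 ≤ H) (Y : ℕ → ℝ) (hY : ∀ m ∈ Icc 1 H, |Y m| ≤ 1) (η : ℝ)
    (hs : |∑ m ∈ Icc 1 H, Y m| ≤ η * H) :
    ∑ d ∈ box k H, (∑ i, Y (d i)) ^ 2 ≤ (H : ℝ) ^ k * (k + (k : ℝ) ^ 2 * η ^ 2) := by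
  have hH0 : (0 : ℝ) < H := by exact_mod_cast hH
  have e : ∀ d : Fin k → ℕ, (∑ i, Y (d i)) ^ 2 = ∑ i, ∑ j, Y (d i) * Y (d j) := by
    intro d
    rw [sq, sum_mul_sum]
  simp only [e]
  rw [sum_comm]
  have h1 : ∀ i : Fin k, ∑ d ∈ box k H, ∑ j, Y (d i) * Y (d j) ≤ (H : ℝ) ^ k * (1 + k * η ^ 2) := by
    intro i
    rw [sum_comm]
    have h2 : ∀ j : Fin k, ∑ d ∈ box k H, Y (d i) * Y (d j) ≤
        (if i = j then (H : ℝ) ^ k else 0) + (H : ℝ) ^ k * η ^ 2 := by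
      intro j
      have pos : 0 ≤ (H : ℝ) ^ k * η ^ 2 := by positivity
      split_ifs with hij
      · subst hij
        have h3 : ∑ d ∈ box k H, Y (d i) * Y (d i) ≤ ∑ d ∈ box k H, (1 : ℝ) := by
          apply sum_le_sum
          intro d hd
          unfold box at hd
          rw [Fintype.mem_piFinset] at hd
          have h4 := abs_le.1 (hY (d i) (hd i))
          nlinarith [h4.1, h4.2]
        rw [sum_const, nsmul_eq_mul, mul_one, box_card] at h3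
        linarith
      · have h3 := two_coord H i j hij Y
        have h4 : (∑ m ∈ Icc 1 H, Y m) ^ 2 ≤ (η * H) ^ 2 := by
          rw [← sq_abs (∑ m ∈ Icc 1 H, Y m)]
          exact pow_le_pow_left₀ (abs_nonneg _) hs 2
        have h5 : (H : ℝ) ^ 2 * ∑ d ∈ box k H, Y (d i) * Y (d j) ≤ (H : ℝ) ^ 2 * ((H : ℝ) ^ k * η ^ 2) := by
          rw [h3]
          calc (∑ m ∈ Icc 1 H, Y m) ^ 2 * (H : ℝ) ^ k ≤ (η * H) ^ 2 * (H : ℝ) ^ k :=
                mul_le_mul_of_nonneg_right h4 (by positivity)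
            _ = _ := by ring
        have h6 := le_of_mul_le_mul_left h5 (by positivity)
        linarith
    refine (sum_le_sum (fun j _ => h2 j)).trans ?_
    rw [sum_add_distrib, sum_ite_eq]
    simp
    linarith
  refine (sum_le_sum (fun i _ => h1 i)).trans ?_
  simp
  apply le_of_eq
  ring

/-- the mean square of the weights -/
noncomputable def sg (H : ℕ) (f : ℕ → ℝ) : ℝ := (∑ d ∈ Icc 1 H, f d ^ 2) / H

lemma sg_nonneg (H : ℕ) (f : ℕ → ℝ) : 0 ≤ sg H f := by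
  unfold sg
  positivity

lemma sg_le (H : ℕ) (hH : 1 ≤ H) (f : ℕ → ℝ) (hf : ∀ d, |f d| ≤ 1) : sg H f ≤ 1 := by
  unfold sg
  have hH0 : (0 : ℝ) < H := by exact_mod_cast hH
  rw [div_le_one hH0]
  calc ∑ d ∈ Icc 1 H, f d ^ 2 ≤ ∑ d ∈ Icc 1 H, (1 : ℝ) := by
        apply sum_le_sum
        intro d _
        rw [← sq_abs]
        exact pow_le_one₀ (abs_nonneg _) (hf d)
    _ = H := by simp

/-- the deviation of the square weight -/
noncomputable def YY (H : ℕ) (f : ℕ → ℝ) (n d : ℕ) : ℝ := mu (n + d) ^ 2 * f d ^ 2 - cc * sg H f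

lemma mu_sq_mem (n : ℕ) : 0 ≤ mu n ^ 2 ∧ mu n ^ 2 ≤ 1 := by
  refine ⟨sq_nonneg _, ?_⟩
  rw [← sq_abs]
  exact pow_le_one₀ (abs_nonneg _) (mu_abs n)

lemma YY_abs (H : ℕ) (hH : 1 ≤ H) (f : ℕ → ℝ) (hf : ∀ d, |f d| ≤ 1) (n d : ℕ) : |YY H f n d| ≤ 1 := by
  unfold YY
  have h1 := mu_sq_mem (n + d)
  have h2 : 0 ≤ f d ^ 2 ∧ f d ^ 2 ≤ 1 := by
    refine ⟨sq_nonneg _, ?_⟩
    rw [← sq_abs]
    exact pow_le_one₀ (abs_nonneg _) (hf d)
  have h3 : 0 ≤ mu (n + d) ^ 2 * f d ^ 2 ∧ mu (n + d) ^ 2 * f d ^ 2 ≤ 1 :=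
    ⟨mul_nonneg h1.1 h2.1, mul_le_one₀ h1.2 h2.1 h2.2⟩
  have h4 : 0 ≤ cc * sg H f ∧ cc * sg H f ≤ 1 :=
    ⟨mul_nonneg cc_pos.le (sg_nonneg H f), mul_le_one₀ cc_one (sg_nonneg H f) (sg_le H hH f hf)⟩
  rw [abs_le]
  constructor <;> linarith [h3.1, h3.2, h4.1, h4.2]

lemma YY_sum (H : ℕ) (hH : 1 ≤ H) (f : ℕ → ℝ) (hf : ∀ d, |f d| ≤ 1) (V : ℝ)
    (hV : ∑ d ∈ Ico 1 H, |f (d + 1) - f d| ≤ V) (n : ℕ) (δ : ℝ) (hδ : 0 ≤ δ)
    (hn : ∀ L ≤ H, |∑ d ∈ Icc 1 L, (mu (n + d) ^ 2 - cc)| ≤ δ * H) :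
    |∑ d ∈ Icc 1 H, YY H f n d| ≤ δ * (1 + 2 * V) * H := by
  have hH0 : (0 : ℝ) < H := by exact_mod_cast hH
  have e : ∑ d ∈ Icc 1 H, YY H f n d = ∑ d ∈ Icc 1 H, (mu (n + d) ^ 2 - cc) * f d ^ 2 := by
    unfold YY sg
    simp only [sub_mul, sum_sub_distrib, sum_const, Nat.card_Icc, add_tsub_cancel_right, nsmul_eq_mul,
      ← mul_sum]
    field_simp
  rw [e]
  have h1 := abel_le (fun d => mu (n + d) ^ 2 - cc) (fun d => f d ^ 2) H hH (δ * H) hn (by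
    rw [abs_of_nonneg (sq_nonneg _), ← sq_abs]
    exact pow_le_one₀ (abs_nonneg _) (hf H))
  refine h1.trans ?_
  have h2 : ∑ j ∈ Ico 1 H, |f (j + 1) ^ 2 - f j ^ 2| ≤ 2 * V := by
    have h3 : ∑ j ∈ Ico 1 H, |f (j + 1) ^ 2 - f j ^ 2| ≤ ∑ j ∈ Ico 1 H, 2 * |f (j + 1) - f j| := by
      apply sum_le_sum
      intro j _
      have e1 : f (j + 1) ^ 2 - f j ^ 2 = (f (j + 1) + f j) * (f (j + 1) - f j) := by ring
      rw [e1, abs_mul]
      apply mul_le_mul_of_nonneg_right _ (abs_nonneg _)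
      have := abs_add_le (f (j + 1)) (f j)
      linarith [hf (j + 1), hf j]
    rw [← mul_sum] at h3
    linarith
  calc δ * H * (1 + ∑ j ∈ Ico 1 H, |f (j + 1) ^ 2 - f j ^ 2|) ≤ δ * H * (1 + 2 * V) := by
        apply mul_le_mul_of_nonneg_left _ (by positivity)
        linarith
    _ = _ := by ring

/-- for almost all the tuples, the conditional variance is concentrated -/
lemma secd (k : ℕ) (hk : 1 ≤ k) (ρ V : ℝ) (hρ : 0 < ρ) (hV0 : 0 ≤ V) : ∃ H₀ : ℕ, 1 ≤ H₀ ∧ ∀ H ≥ H₀, ∀ X ≥ H,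
    ∀ A ⊆ Icc X (2 * X), ∀ f : ℕ → ℝ, (∀ d, |f d| ≤ 1) → ∑ d ∈ Ico 1 H, |f (d + 1) - f d| ≤ V →
    (#{d ∈ box k H | ¬ ∑ n ∈ A, (∑ i, YY H f n (d i)) ^ 2 ≤ 3 * k / ρ * X} : ℝ) ≤ ρ * (H : ℝ) ^ k := by
  obtain ⟨η, hη⟩ : ∃ η : ℝ, η = 1 / (4 * k ^ 2 * (1 + 2 * V) ^ 2) := ⟨_, rfl⟩
  have hk0 : (0 : ℝ) < k := by exact_mod_cast hk
  have hk1 : (1 : ℝ) ≤ k := by exact_mod_cast hk
  have hη0 : 0 < η := by rw [hη]; positivity
  have hη1 : η ≤ 1 / (4 * k ^ 2) := by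
    rw [hη]
    apply one_div_le_one_div_of_le (by positivity)
    have : (1 : ℝ) ≤ (1 + 2 * V) ^ 2 := one_le_pow₀ (by linarith)
    nlinarith [(by positivity : (0 : ℝ) < 4 * k ^ 2)]
  obtain ⟨H₀, h0, h1⟩ := sqf_short η hη0
  refine ⟨H₀, h0, fun H hH X hX A hA f hf hfV => ?_⟩
  have hH1 : 1 ≤ H := by omega
  have hH0 : (0 : ℝ) < H := by exact_mod_cast hH1
  have hX0 : (0 : ℝ) < X := by exact_mod_cast (by omega : 0 < X)
  have hX1 : (1 : ℝ) ≤ X := by exact_mod_cast (by omega : 1 ≤ X)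
  set bad : ℕ → Prop := fun n => ¬ ∀ L ≤ H, |∑ d ∈ Icc 1 L, (mu (n + d) ^ 2 - cc)| ≤ η * H with hbad
  have hpt : ∀ n, ∑ d ∈ box k H, (∑ i, YY H f n (d i)) ^ 2 ≤
      (H : ℝ) ^ k * (k + 1 / 4) + (if bad n then (H : ℝ) ^ k * (k : ℝ) ^ 2 else 0) := by
    intro n
    split_ifs with hb
    · have h2 : ∑ d ∈ box k H, (∑ i, YY H f n (d i)) ^ 2 ≤ ∑ d ∈ box k H, (k : ℝ) ^ 2 := by
        apply sum_le_sum
        intro d _
        rw [← sq_abs]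
        apply pow_le_pow_left₀ (abs_nonneg _)
        refine (abs_sum_le_sum_abs _ _).trans ?_
        refine (sum_le_sum (fun i _ => YY_abs H hH1 f hf n (d i))).trans ?_
        simp
      rw [sum_const, nsmul_eq_mul, box_card] at h2
      have : 0 ≤ (H : ℝ) ^ k * (k + 1 / 4) := by positivity
      linarith
    · rw [hbad] at hb
      simp only [not_not] at hb
      have h2 := second (k := k) H hH1 (YY H f n) (fun m _ => YY_abs H hH1 f hf n m) (η * (1 + 2 * V))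
        (YY_sum H hH1 f hf V hfV n η hη0.le hb)
      rw [add_zero]
      refine h2.trans ?_
      apply mul_le_mul_of_nonneg_left _ (by positivity)
      have h3 : (k : ℝ) ^ 2 * (η * (1 + 2 * V)) ^ 2 ≤ 1 / 4 := by
        have e1 : (k : ℝ) ^ 2 * (η * (1 + 2 * V)) ^ 2 = η * (k ^ 2 * (1 + 2 * V) ^ 2 * η) := by ring
        have e2 : (k : ℝ) ^ 2 * (1 + 2 * V) ^ 2 * η = 1 / 4 := by
          rw [hη]
          field_simp
        rw [e1, e2]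
        have h4 : η ≤ 1 := hη1.trans (by
          rw [div_le_one (by positivity)]
          nlinarith)
        nlinarith
      linarith
  have htot : ∑ d ∈ box k H, ∑ n ∈ A, (∑ i, YY H f n (d i)) ^ 2 ≤ 3 * k * X * (H : ℝ) ^ k := by
    rw [sum_comm]
    refine (sum_le_sum (fun n _ => hpt n)).trans ?_
    rw [sum_add_distrib, sum_const, nsmul_eq_mul, ← sum_filter, sum_const, nsmul_eq_mul]
    have hAc : (#A : ℝ) ≤ X + 1 := by
      have := card_le_card hA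
      rw [Nat.card_Icc] at this
      have h2 : #A ≤ X + 1 := by omega
      exact_mod_cast h2
    have hBc : (#{n ∈ A | bad n} : ℝ) ≤ η * X := by
      refine le_trans ?_ (h1 H hH X hX)
      apply Nat.cast_le.2
      apply card_le_card
      exact filter_subset_filter _ hA
    have hpos : (0 : ℝ) < (H : ℝ) ^ k := by positivity
    have h5 : (#A : ℝ) * ((H : ℝ) ^ k * (k + 1 / 4)) ≤ (X + 1) * ((H : ℝ) ^ k * (k + 1 / 4)) :=
      mul_le_mul_of_nonneg_right hAc (by positivity)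
    have h6 : (#{n ∈ A | bad n} : ℝ) * ((H : ℝ) ^ k * (k : ℝ) ^ 2) ≤ η * X * ((H : ℝ) ^ k * (k : ℝ) ^ 2) :=
      mul_le_mul_of_nonneg_right hBc (by positivity)
    have h7 : η * (k : ℝ) ^ 2 ≤ 1 / 4 := by
      calc η * (k : ℝ) ^ 2 ≤ 1 / (4 * k ^ 2) * k ^ 2 := mul_le_mul_of_nonneg_right hη1 (by positivity)
        _ = 1 / 4 := by field_simp
    have h8 : (X + 1) * ((H : ℝ) ^ k * (k + 1 / 4)) + η * X * ((H : ℝ) ^ k * (k : ℝ) ^ 2) ≤
        3 * k * X * (H : ℝ) ^ k := by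
      have h9 : (X + 1) * ((k : ℝ) + 1 / 4) + X * (η * (k : ℝ) ^ 2) ≤ 3 * k * X := by
        have h10 : (X : ℝ) * (η * (k : ℝ) ^ 2) ≤ X * (1 / 4) := mul_le_mul_of_nonneg_left h7 hX0.le
        have h11 : ((X : ℝ) + 1) * ((k : ℝ) + 1 / 4) ≤ (2 * X) * ((k : ℝ) + 1 / 4) :=
          mul_le_mul_of_nonneg_right (by linarith) (by positivity)
        nlinarith
      calc (X + 1) * ((H : ℝ) ^ k * (k + 1 / 4)) + η * X * ((H : ℝ) ^ k * (k : ℝ) ^ 2) =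
            ((X + 1) * ((k : ℝ) + 1 / 4) + X * (η * (k : ℝ) ^ 2)) * (H : ℝ) ^ k := by ring
        _ ≤ 3 * k * X * (H : ℝ) ^ k := mul_le_mul_of_nonneg_right h9 hpos.le
    linarith
  have hmark : (#{d ∈ box k H | ¬ ∑ n ∈ A, (∑ i, YY H f n (d i)) ^ 2 ≤ 3 * k / ρ * X} : ℝ) * (3 * k / ρ * X) ≤
      ∑ d ∈ box k H, ∑ n ∈ A, (∑ i, YY H f n (d i)) ^ 2 := by
    rw [← nsmul_eq_mul]
    refine (card_nsmul_le_sum _ _ _ (fun n hn => (not_le.1 (mem_filter.1 hn).2).le)).trans ?_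
    apply sum_le_sum_of_subset_of_nonneg (filter_subset _ _)
    intro n _ _
    positivity
  have h2 := hmark.trans htot
  have e : 3 * (k : ℝ) * X * (H : ℝ) ^ k = ρ * (H : ℝ) ^ k * (3 * k / ρ * X) := by
    field_simp
  rw [e] at h2
  exact le_of_mul_le_mul_right h2 (by positivity)

end Pool.Agent.J4.H66.MG
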