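import Pool.Agent.J4.H66.MG.Cor
import Pool.Agent.Y293.SF.SQF

set_option autoImplicit false

/-! Squarefree integers in almost all short intervals, and the Abel summation. -/

namespace Pool.Agent.J4.H66.MG
open Finset Filter Topology

/-- the density of the squarefree integers -/
noncomputable def cc : ℝ := 6 / Real.pi ^ 2

lemma cc_pos : 0 < cc := by unfold cc; positivity

lemma cc_half : 1 / 2 ≤ cc := by
  unfold cc
  have h1 := Real.pi_lt_d2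
  have h2 := Real.pi_gt_three
  rw [div_le_div_iff₀ (by norm_num) (by positivity)]
  nlinarith

lemma cc_one : cc ≤ 1 := by
  unfold cc
  have h2 := Real.pi_gt_three
  rw [div_le_one (by positivity)]
  nlinarith

lemma cnt (q a b : ℕ) (hq : 1 ≤ q) (hab : a ≤ b) :
    |(#{m ∈ Ioc a b | q ∣ m} : ℝ) - (b - a) / q| ≤ 1 := by
  have h1 : #{m ∈ Ioc 0 b | q ∣ m} = #{m ∈ Ioc 0 a | q ∣ m} + #{m ∈ Ioc a b | q ∣ m} := by
    rw [← card_union_of_disjoint, ← filter_union]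
    · congr 2
      ext m
      simp only [mem_union, mem_Ioc]
      omega
    · apply disjoint_filter_filter
      rw [disjoint_left]
      intro m h1 h2
      rw [mem_Ioc] at h1 h2
      omega
  rw [Nat.Ioc_filter_dvd_card_eq_div, Nat.Ioc_filter_dvd_card_eq_div] at h1
  have h2 : ((b / q : ℕ) : ℝ) = ((a / q : ℕ) : ℝ) + (#{m ∈ Ioc a b | q ∣ m} : ℝ) := by exact_mod_cast h1
  have hq0 : (0 : ℝ) < q := by exact_mod_cast hq
  have key : ∀ x : ℕ, ((x / q : ℕ) : ℝ) ≤ (x : ℝ) / q ∧ (x : ℝ) / q < ((x / q : ℕ) : ℝ) + 1 := by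
    intro x
    refine ⟨Nat.cast_div_le, ?_⟩
    rw [div_lt_iff₀ hq0]
    have := Nat.lt_div_mul_add (a := x) hq
    have h3 : (x : ℝ) < ((x / q : ℕ) : ℝ) * q + q := by exact_mod_cast this
    linarith
  have ha := key a
  have hb := key b
  rw [sub_div, abs_le]
  constructor <;> linarith [ha.1, ha.2, hb.1, hb.2]

lemma cnt' (q n L : ℕ) (hq : 1 ≤ q) :
    |(#{d ∈ Icc 1 L | q ∣ n + d} : ℝ) - (L : ℝ) / q| ≤ 1 := by
  have h := cnt q n (n + L) hq (by omega)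
  have e : #{d ∈ Icc 1 L | q ∣ n + d} = #{m ∈ Ioc n (n + L) | q ∣ m} := by
    apply card_bij (fun d _ => n + d)
    · intro d hd
      simp only [mem_filter, mem_Icc, mem_Ioc] at hd ⊢
      exact ⟨by omega, hd.2⟩
    · intro d _ d' _ h
      omega
    · intro m hm
      simp only [mem_filter, mem_Icc, mem_Ioc] at hm
      refine ⟨m - n, ?_, by omega⟩
      simp only [mem_filter, mem_Icc]
      have : n + (m - n) = m := by omega
      rw [this]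
      exact ⟨by omega, hm.2⟩
  rw [e]
  convert h using 4
  push_cast
  ring

lemma tail (P : ℕ) (hP : 1 ≤ P) : |∑ a ∈ Icc 1 P, mu a / (a : ℝ) ^ 2 - cc| ≤ 1 / P := by
  have h1 : ∀ Q ≥ P, |∑ a ∈ Icc 1 P, mu a / (a : ℝ) ^ 2 - ∑ a ∈ Icc 1 Q, mu a / (a : ℝ) ^ 2| ≤ 1 / P := by
    intro Q hQ
    have e : ∑ a ∈ Icc 1 Q, mu a / (a : ℝ) ^ 2 = ∑ a ∈ Icc 1 P, mu a / (a : ℝ) ^ 2 +
        ∑ a ∈ Ioc P Q, mu a / (a : ℝ) ^ 2 := by
      rw [← sum_union]
      · apply sum_congr _ (fun _ _ => rfl)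
        ext m
        simp only [mem_union, mem_Icc, mem_Ioc]
        omega
      · rw [disjoint_left]
        intro m h1 h2
        rw [mem_Icc] at h1
        rw [mem_Ioc] at h2
        omega
    rw [e, sub_add_cancel_left, abs_neg]
    refine (abs_sum_le_sum_abs _ _).trans ?_
    have h2 : ∑ a ∈ Ioc P Q, |mu a / (a : ℝ) ^ 2| ≤ ∑ a ∈ Ioc P Q, ((a : ℝ) ^ 2)⁻¹ := by
      apply sum_le_sum
      intro a _
      rw [abs_div, abs_of_nonneg (by positivity : (0 : ℝ) ≤ (a : ℝ) ^ 2), div_eq_mul_inv]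
      exact mul_le_of_le_one_left (by positivity) (mu_abs a)
    refine h2.trans ((sum_Ioc_inv_sq_le_sub (by omega) hQ).trans ?_)
    rw [one_div]
    have : (0 : ℝ) ≤ (Q : ℝ)⁻¹ := by positivity
    linarith
  have h2 : Tendsto (fun Q : ℕ => ∑ a ∈ Icc 1 Q, mu a / (a : ℝ) ^ 2) atTop (𝓝 cc) := by
    have h3 := Pool.Agent.Y293.SF.moebius_hasSum.tendsto_sum_nat.comp (tendsto_add_atTop_nat 1)
    refine h3.congr (fun Q => ?_)
    simp only [Function.comp]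
    have e : range (Q + 1) = insert 0 (Icc 1 Q) := by
      ext m
      simp only [mem_range, mem_insert, mem_Icc]
      omega
    rw [e, sum_insert (by simp), Pool.Agent.Y293.SF.mu_zero, zero_mul, zero_add]
    apply sum_congr rfl
    intro a _
    unfold Pool.Agent.Y293.SF.mu mu
    rw [mul_one_div]
  have h3 : Tendsto (fun Q : ℕ => |∑ a ∈ Icc 1 P, mu a / (a : ℝ) ^ 2 - ∑ a ∈ Icc 1 Q, mu a / (a : ℝ) ^ 2|) atTop
      (𝓝 |∑ a ∈ Icc 1 P, mu a / (a : ℝ) ^ 2 - cc|) := (tendsto_const_nhds.sub h2).abs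
  apply le_of_tendsto h3
  filter_upwards [eventually_ge_atTop P] with Q hQ
  exact h1 Q hQ

/-- the large square divisors -/
noncomputable def TT (P M H n : ℕ) : ℝ := ∑ a ∈ Ioc P M, (#{d ∈ Icc 1 H | a ^ 2 ∣ n + d} : ℝ)

lemma musq (m : ℕ) (hm : m ≠ 0) (P M : ℕ) (hM : m < (M + 1) ^ 2) (hPM : P ≤ M) :
    mu m ^ 2 = ∑ a ∈ Icc 1 P, (if a ^ 2 ∣ m then mu a else 0) + ∑ a ∈ Ioc P M, (if a ^ 2 ∣ m then mu a else 0) := by
  have h1 := Pool.Agent.Y293.SF.indic_eq m hm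
  have e1 : mu m ^ 2 = if Squarefree m then (1 : ℝ) else 0 := by
    unfold mu
    have h2 := ArithmeticFunction.moebius_sq (n := m)
    have h3 : ((ArithmeticFunction.moebius m : ℤ) : ℝ) ^ 2 = (((ArithmeticFunction.moebius m) ^ 2 : ℤ) : ℝ) := by
      push_cast; rfl
    rw [h3, h2]
    split_ifs <;> simp
  have e2 : ∑ a ∈ Icc 1 P, (if a ^ 2 ∣ m then mu a else 0) + ∑ a ∈ Ioc P M, (if a ^ 2 ∣ m then mu a else 0) =
      ∑ a ∈ Icc 1 M, (if a ^ 2 ∣ m then mu a else 0) := by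
    rw [← sum_union]
    · apply sum_congr _ (fun _ _ => rfl)
      ext m
      simp only [mem_union, mem_Icc, mem_Ioc]
      omega
    · rw [disjoint_left]
      intro m h1 h2
      rw [mem_Icc] at h1
      rw [mem_Ioc] at h2
      omega
  rw [e1, e2, h1]
  have e3 : ∀ S : Finset ℕ, ∑ a ∈ S, (if a ^ 2 ∣ m then Pool.Agent.Y293.SF.mu a else 0) =
      ∑ a ∈ S, (if a ^ 2 ∣ m then mu a else 0) := fun S => rfl
  rw [e3]
  have key : ∀ a : ℕ, a ^ 2 ∣ m → a ≤ m ∧ a ≤ M := by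
    intro a ha
    have h2 := Nat.le_of_dvd (Nat.pos_of_ne_zero hm) ha
    constructor
    · rcases Nat.eq_zero_or_pos a with h | h
      · omega
      · nlinarith
    · by_contra hcon
      push Not at hcon
      have : (M + 1) ^ 2 ≤ a ^ 2 := Nat.pow_le_pow_left (by omega) 2
      omega
  rw [← sum_filter, ← sum_filter]
  apply sum_congr _ (fun _ _ => rfl)
  ext a
  simp only [mem_filter, mem_Icc]
  constructor
  · rintro ⟨⟨h1, h2⟩, h3⟩
    exact ⟨⟨h1, (key a h3).2⟩, h3⟩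
  · rintro ⟨⟨h1, h2⟩, h3⟩
    exact ⟨⟨h1, (key a h3).1⟩, h3⟩

lemma sqf_pt (P M H L n : ℕ) (hP : 1 ≤ P) (hPM : P ≤ M) (hL : L ≤ H) (hM : n + H < (M + 1) ^ 2) :
    |∑ d ∈ Icc 1 L, (mu (n + d) ^ 2 - cc)| ≤ P + H / P + TT P M H n := by
  have h1 : ∀ d ∈ Icc 1 L, mu (n + d) ^ 2 = ∑ a ∈ Icc 1 P, (if a ^ 2 ∣ n + d then mu a else 0) +
      ∑ a ∈ Ioc P M, (if a ^ 2 ∣ n + d then mu a else 0) := by
    intro d hd
    rw [mem_Icc] at hd
    exact musq (n + d) (by omega) P M (by omega) hPM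
  have h2 : ∑ d ∈ Icc 1 L, (mu (n + d) ^ 2 - cc) =
      (∑ a ∈ Icc 1 P, mu a * ((#{d ∈ Icc 1 L | a ^ 2 ∣ n + d} : ℝ) - L / (a : ℝ) ^ 2)) +
      L * (∑ a ∈ Icc 1 P, mu a / (a : ℝ) ^ 2 - cc) +
      ∑ a ∈ Ioc P M, mu a * (#{d ∈ Icc 1 L | a ^ 2 ∣ n + d} : ℝ) := by
    rw [sum_sub_distrib, sum_congr rfl h1, sum_add_distrib, sum_comm, sum_comm (s := Icc 1 L) (t := Ioc P M)]
    have e1 : ∀ S : Finset ℕ, ∑ a ∈ S, ∑ d ∈ Icc 1 L, (if a ^ 2 ∣ n + d then mu a else 0) =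
        ∑ a ∈ S, mu a * (#{d ∈ Icc 1 L | a ^ 2 ∣ n + d} : ℝ) := by
      intro S
      apply sum_congr rfl
      intro a _
      rw [← sum_filter, sum_const, nsmul_eq_mul, mul_comm]
    rw [e1, e1]
    simp only [mul_sub, sum_sub_distrib, sum_const, Nat.card_Icc, add_tsub_cancel_right, nsmul_eq_mul, mul_sum]
    have e2 : ∑ i ∈ Icc 1 P, mu i * ((L : ℝ) / (i : ℝ) ^ 2) = ∑ i ∈ Icc 1 P, (L : ℝ) * (mu i / (i : ℝ) ^ 2) := by
      apply sum_congr rfl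
      intro i _
      ring
    rw [e2]
    ring
  rw [h2]
  have hLH : (L : ℝ) ≤ H := by exact_mod_cast hL
  have hP0 : (0 : ℝ) < P := by exact_mod_cast hP
  have b1 : |∑ a ∈ Icc 1 P, mu a * ((#{d ∈ Icc 1 L | a ^ 2 ∣ n + d} : ℝ) - L / (a : ℝ) ^ 2)| ≤ P := by
    refine (abs_sum_le_sum_abs _ _).trans ?_
    have : ∑ a ∈ Icc 1 P, |mu a * ((#{d ∈ Icc 1 L | a ^ 2 ∣ n + d} : ℝ) - L / (a : ℝ) ^ 2)| ≤
        ∑ a ∈ Icc 1 P, (1 : ℝ) := by
      apply sum_le_sum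
      intro a ha
      rw [mem_Icc] at ha
      rw [abs_mul]
      have h3 := cnt' (a ^ 2) n L (Nat.one_le_pow _ _ ha.1)
      push_cast at h3
      exact mul_le_one₀ (mu_abs a) (abs_nonneg _) h3
    refine this.trans ?_
    simp
  have b2 : |(L : ℝ) * (∑ a ∈ Icc 1 P, mu a / (a : ℝ) ^ 2 - cc)| ≤ H / P := by
    rw [abs_mul, abs_of_nonneg (Nat.cast_nonneg L), div_eq_mul_one_div]
    exact mul_le_mul hLH (tail P hP) (abs_nonneg _) (Nat.cast_nonneg _)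
  have b3 : |∑ a ∈ Ioc P M, mu a * (#{d ∈ Icc 1 L | a ^ 2 ∣ n + d} : ℝ)| ≤ TT P M H n := by
    refine (abs_sum_le_sum_abs _ _).trans ?_
    unfold TT
    apply sum_le_sum
    intro a _
    rw [abs_mul, Nat.abs_cast]
    refine (mul_le_of_le_one_left (Nat.cast_nonneg _) (mu_abs a)).trans ?_
    apply Nat.cast_le.2
    apply card_le_card
    intro d hd
    rw [mem_filter, mem_Icc] at hd ⊢
    exact ⟨⟨hd.1.1, hd.1.2.trans hL⟩, hd.2⟩
  have t1 := abs_add_le (∑ a ∈ Icc 1 P, mu a * ((#{d ∈ Icc 1 L | a ^ 2 ∣ n + d} : ℝ) - L / (a : ℝ) ^ 2) +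
      L * (∑ a ∈ Icc 1 P, mu a / (a : ℝ) ^ 2 - cc)) (∑ a ∈ Ioc P M, mu a * (#{d ∈ Icc 1 L | a ^ 2 ∣ n + d} : ℝ))
  have t2 := abs_add_le (∑ a ∈ Icc 1 P, mu a * ((#{d ∈ Icc 1 L | a ^ 2 ∣ n + d} : ℝ) - L / (a : ℝ) ^ 2))
      (L * (∑ a ∈ Icc 1 P, mu a / (a : ℝ) ^ 2 - cc))
  linarith

lemma TT_sum (P M H X : ℕ) (hP : 1 ≤ P) (hPM : P ≤ M) :
    ∑ n ∈ Icc X (2 * X), TT P M H n ≤ H * ((X + 1) / P + M) := by
  unfold TT
  rw [sum_comm]
  have h1 : ∀ a ∈ Ioc P M, ∑ n ∈ Icc X (2 * X), (#{d ∈ Icc 1 H | a ^ 2 ∣ n + d} : ℝ) ≤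
      H * ((X + 1) * ((a : ℝ) ^ 2)⁻¹ + 1) := by
    intro a ha
    rw [mem_Ioc] at ha
    have e : ∑ n ∈ Icc X (2 * X), (#{d ∈ Icc 1 H | a ^ 2 ∣ n + d} : ℝ) =
        ∑ d ∈ Icc 1 H, (#{n ∈ Icc X (2 * X) | a ^ 2 ∣ n + d} : ℝ) := by
      simp only [← sum_boole]
      rw [sum_comm]
    rw [e]
    have h2 : ∀ d ∈ Icc 1 H, (#{n ∈ Icc X (2 * X) | a ^ 2 ∣ n + d} : ℝ) ≤ (X + 1) * ((a : ℝ) ^ 2)⁻¹ + 1 := by
      intro d hd
      rw [mem_Icc] at hd
      have h3 := cnt' (a ^ 2) (X + d - 1) (X + 1) (Nat.one_le_pow _ _ (by omega))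
      have e2 : #{n ∈ Icc X (2 * X) | a ^ 2 ∣ n + d} = #{m ∈ Icc 1 (X + 1) | a ^ 2 ∣ (X + d - 1) + m} := by
        apply card_bij (fun n _ => n + 1 - X)
        · intro n hn
          simp only [mem_filter, mem_Icc] at hn ⊢
          refine ⟨by omega, ?_⟩
          have : X + d - 1 + (n + 1 - X) = n + d := by omega
          rw [this]
          exact hn.2
        · intro n hn n' hn' h
          simp only [mem_filter, mem_Icc] at hn hn'
          omega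
        · intro m hm
          simp only [mem_filter, mem_Icc] at hm
          refine ⟨m + X - 1, ?_, by omega⟩
          simp only [mem_filter, mem_Icc]
          have : m + X - 1 + d = X + d - 1 + m := by omega
          rw [this]
          exact ⟨by omega, hm.2⟩
      rw [e2]
      have h4 := (abs_le.1 h3).2
      push_cast at h4
      rw [div_eq_mul_inv] at h4
      linarith
    refine (sum_le_sum h2).trans ?_
    rw [sum_const, Nat.card_Icc, nsmul_eq_mul, Nat.add_sub_cancel]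
  refine (sum_le_sum h1).trans ?_
  rw [← mul_sum, sum_add_distrib, ← mul_sum]
  apply mul_le_mul_of_nonneg_left _ (Nat.cast_nonneg _)
  have h3 : ∑ i ∈ Ioc P M, ((i : ℝ) ^ 2)⁻¹ ≤ 1 / P := by
    refine (sum_Ioc_inv_sq_le_sub (by omega) hPM).trans ?_
    rw [one_div]
    have : (0 : ℝ) ≤ (M : ℝ)⁻¹ := by positivity
    linarith
  have h4 : (∑ i ∈ Ioc P M, (1 : ℝ)) ≤ M := by
    simp
  have h5 : ((X : ℝ) + 1) * ∑ i ∈ Ioc P M, ((i : ℝ) ^ 2)⁻¹ ≤ (X + 1) / P := by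
    rw [div_eq_mul_one_div]
    exact mul_le_mul_of_nonneg_left h3 (by positivity)
  linarith

lemma TT_nonneg (P M H n : ℕ) : 0 ≤ TT P M H n := by
  unfold TT
  positivity

/-- almost all short intervals have the right number of squarefree integers, up to all the lengths -/
lemma sqf_short (δ : ℝ) (hδ : 0 < δ) : ∃ H₀ : ℕ, 1 ≤ H₀ ∧ ∀ H ≥ H₀, ∀ X ≥ H,
    (#{n ∈ Icc X (2 * X) | ¬ ∀ L ≤ H, |∑ d ∈ Icc 1 L, (mu (n + d) ^ 2 - cc)| ≤ δ * H} : ℝ) ≤ δ * X := by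
  obtain ⟨P, hP⟩ := exists_nat_gt (max (4 / δ) (8 / δ ^ 2))
  have hP1 := (le_max_left _ _).trans_lt hP
  have hP2 := (le_max_right _ _).trans_lt hP
  have hP0 : (0 : ℝ) < P := lt_trans (by positivity) hP1
  have hPn : 1 ≤ P := by exact_mod_cast hP0
  refine ⟨⌈4 * P / δ⌉₊ + ⌈(16 / δ ^ 2) ^ 2 * 4⌉₊ + P ^ 2 + 1, by omega, fun H hH X hX => ?_⟩
  set M := Nat.sqrt (3 * X) with hM
  have hPM : P ≤ M := by
    rw [hM, Nat.le_sqrt']
    omega
  have hHr : 4 * P / δ ≤ H := (Nat.le_ceil _).trans (by exact_mod_cast (by omega : ⌈4 * P / δ⌉₊ ≤ H))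
  have hH0 : (0 : ℝ) < H := by exact_mod_cast (by omega : 0 < H)
  have hX0 : (0 : ℝ) < X := by exact_mod_cast (by omega : 0 < X)
  have hX1 : (1 : ℝ) ≤ X := by exact_mod_cast (by omega : 1 ≤ X)
  have hMX : (M : ℝ) ≤ δ ^ 2 / 8 * X := by
    have h1 : (M : ℝ) ^ 2 ≤ 3 * X := by
      have := Nat.sqrt_le' (3 * X)
      exact_mod_cast this
    have h2 : (16 / δ ^ 2) ^ 2 * 4 ≤ (X : ℝ) :=
      (Nat.le_ceil _).trans (by exact_mod_cast (by omega : ⌈(16 / δ ^ 2) ^ 2 * 4⌉₊ ≤ X))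
    have h3 : (M : ℝ) ^ 2 ≤ (δ ^ 2 / 8 * X) ^ 2 := by
      refine h1.trans ?_
      have h4 : (δ ^ 2 / 8) ^ 2 * ((16 / δ ^ 2) ^ 2 * 4) = 16 := by
        field_simp
        norm_num
      calc 3 * (X : ℝ) ≤ 16 * X := by linarith
        _ = (δ ^ 2 / 8) ^ 2 * ((16 / δ ^ 2) ^ 2 * 4) * X := by rw [h4]
        _ ≤ (δ ^ 2 / 8) ^ 2 * X * X := by
            apply mul_le_mul_of_nonneg_right _ hX0.le
            exact mul_le_mul_of_nonneg_left h2 (by positivity)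
        _ = _ := by ring
    exact (pow_le_pow_iff_left₀ (Nat.cast_nonneg _) (by positivity) (by norm_num)).1 h3
  have hsub : ({n ∈ Icc X (2 * X) | ¬ ∀ L ≤ H, |∑ d ∈ Icc 1 L, (mu (n + d) ^ 2 - cc)| ≤ δ * H}) ⊆
      {n ∈ Icc X (2 * X) | δ / 2 * H ≤ TT P M H n} := by
    intro n hn
    rw [mem_filter] at hn ⊢
    refine ⟨hn.1, ?_⟩
    have hn1 := mem_Icc.1 hn.1
    by_contra hcon
    push Not at hcon
    apply hn.2
    intro L hL
    have hMlt : n + H < (M + 1) ^ 2 := by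
      have := Nat.lt_succ_sqrt' (3 * X)
      rw [← hM] at this
      simp only [Nat.succ_eq_add_one] at this
      omega
    refine (sqf_pt P M H L n hPn hPM hL hMlt).trans ?_
    have h1 : (P : ℝ) ≤ δ / 4 * H := by
      rw [div_le_iff₀ hδ] at hHr
      linarith
    have h2 : (H : ℝ) / P ≤ δ / 4 * H := by
      rw [div_le_iff₀ hP0]
      rw [div_lt_iff₀ hδ] at hP1
      nlinarith
    linarith
  have hcard := card_le_card hsub
  have hmark : (#{n ∈ Icc X (2 * X) | δ / 2 * H ≤ TT P M H n} : ℝ) * (δ / 2 * H) ≤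
      ∑ n ∈ Icc X (2 * X), TT P M H n := by
    rw [← nsmul_eq_mul]
    refine (card_nsmul_le_sum _ _ _ (fun n hn => (mem_filter.1 hn).2)).trans ?_
    apply sum_le_sum_of_subset_of_nonneg (filter_subset _ _)
    intro n _ _
    exact TT_nonneg _ _ _ _
  have h1 := hmark.trans (TT_sum P M H X hPn hPM)
  have h2 : (H : ℝ) * ((X + 1) / P + M) ≤ (δ * X) * (δ / 2 * H) := by
    have h3 : ((X : ℝ) + 1) / P ≤ δ ^ 2 / 4 * X := by
      rw [div_le_iff₀ hP0]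
      rw [div_lt_iff₀ (by positivity)] at hP2
      nlinarith
    have h4 : ((X : ℝ) + 1) / P + M ≤ δ ^ 2 / 2 * X := by
      have : 0 ≤ δ ^ 2 / 8 * X := by positivity
      linarith
    calc (H : ℝ) * ((X + 1) / P + M) ≤ H * (δ ^ 2 / 2 * X) := mul_le_mul_of_nonneg_left h4 hH0.le
      _ = _ := by ring
  have h3 := le_of_mul_le_mul_right (h1.trans h2) (by positivity : 0 < δ / 2 * H)
  exact le_trans (by exact_mod_cast hcard) h3

lemma abel (Y F : ℕ → ℝ) (H : ℕ) (hH : 1 ≤ H) :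
    ∑ d ∈ Icc 1 H, Y d * F d = (∑ d ∈ Icc 1 H, Y d) * F H -
      ∑ j ∈ Ico 1 H, (∑ d ∈ Icc 1 j, Y d) * (F (j + 1) - F j) := by
  induction H, hH using Nat.le_induction with
  | base => simp
  | succ H hH ih =>
    rw [sum_Icc_succ_top (by omega), ih, sum_Icc_succ_top (by omega), sum_Ico_succ_top hH]
    ring

lemma abel_le (Y F : ℕ → ℝ) (H : ℕ) (hH : 1 ≤ H) (B : ℝ) (hB : ∀ L ≤ H, |∑ d ∈ Icc 1 L, Y d| ≤ B)
    (hF : |F H| ≤ 1) :
    |∑ d ∈ Icc 1 H, Y d * F d| ≤ B * (1 + ∑ j ∈ Ico 1 H, |F (j + 1) - F j|) := by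
  have hB0 : 0 ≤ B := (abs_nonneg _).trans (hB 0 (by omega))
  rw [abel Y F H hH]
  refine (abs_sub _ _).trans ?_
  rw [mul_add]
  apply add_le_add
  · rw [abs_mul]
    exact mul_le_mul (hB H le_rfl) hF (abs_nonneg _) hB0
  · refine (abs_sum_le_sum_abs _ _).trans ?_
    rw [mul_sum]
    apply sum_le_sum
    intro j hj
    rw [mem_Ico] at hj
    rw [abs_mul]
    exact mul_le_mul_of_nonneg_right (hB j (by omega)) (abs_nonneg _)

end Pool.Agent.J4.H66.MG
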